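import Mathlib

/-!
# Thin spaces: accumulation points and limits of countable sets
-/

set_option autoImplicit false

open Set Topology Filter Function

universe u

namespace Pool.Agent.H376R4

variable {S : Type u} [TopologicalSpace S]

/-- Any two homeomorphic subsets are exchanged by a homeomorphism of the whole space. -/
def Thin (S : Type u) [TopologicalSpace S] : Prop :=
  ∀ A B : Set S, Nonempty (A ≃ₜ B) → ∃ h : S ≃ₜ S, ⇑h '' A = B

/-- points all of whose neighbourhoods contain infinitely many points of `X` -/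
def Acc (X : Set S) : Set S := {p | ∀ U ∈ 𝓝 p, (U ∩ X).Infinite}

/-- points all of whose neighbourhoods contain all but finitely many points of `X` -/
def Lm (X : Set S) : Set S := {p | ∀ U ∈ 𝓝 p, (X \ U).Finite}

theorem Acc.mono {X Y : Set S} (h : X ⊆ Y) : Acc X ⊆ Acc Y := fun _ hp U hU =>
  (hp U hU).mono (inter_subset_inter_right _ h)

theorem Lm.anti {X Y : Set S} (h : X ⊆ Y) : Lm Y ⊆ Lm X := fun _ hp U hU =>
  (hp U hU).subset (sdiff_subset_sdiff_left h)

theorem notMem_acc {X : Set S} {p : S} : p ∉ Acc X ↔ ∃ U, IsOpen U ∧ p ∈ U ∧ (U ∩ X).Finite := by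
  constructor
  · intro h
    simp only [Acc, mem_setOf_eq, not_forall, not_infinite] at h
    obtain ⟨U, hU, hf⟩ := h
    obtain ⟨V, hVU, hV, hp⟩ := mem_nhds_iff.1 hU
    exact ⟨V, hV, hp, hf.subset (inter_subset_inter_left _ hVU)⟩
  · rintro ⟨U, hU, hp, hf⟩ h
    exact h U (hU.mem_nhds hp) hf

theorem Acc.union (X Y : Set S) : Acc (X ∪ Y) ⊆ Acc X ∪ Acc Y := by
  intro p hp
  by_contra hcon
  rw [mem_union, not_or] at hcon
  obtain ⟨⟨U, hU, hpU, hfU⟩, ⟨V, hV, hpV, hfV⟩⟩ := And.intro (notMem_acc.1 hcon.1)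
    (notMem_acc.1 hcon.2)
  refine notMem_acc.2 ⟨U ∩ V, hU.inter hV, ⟨hpU, hpV⟩, ?_⟩ hp
  refine (hfU.union hfV).subset ?_
  rintro x ⟨⟨h1, h2⟩, h3 | h3⟩
  · exact Or.inl ⟨h1, h3⟩
  · exact Or.inr ⟨h2, h3⟩

theorem isClosed_acc (X : Set S) : IsClosed (Acc X) := by
  rw [← isOpen_compl_iff, isOpen_iff_mem_nhds]
  intro p hp
  obtain ⟨U, hU, hpU, hf⟩ := notMem_acc.1 hp
  refine mem_of_superset (hU.mem_nhds hpU) ?_
  intro q hq
  exact notMem_acc.2 ⟨U, hU, hq, hf⟩

theorem acc_subset {X C : Set S} (hC : IsClosed C) (h : X ⊆ C) : Acc X ⊆ C := by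
  intro p hp
  by_contra hpC
  have := hp Cᶜ (hC.isOpen_compl.mem_nhds hpC)
  apply this
  have h2 : Cᶜ ∩ X = ∅ := by
    ext x
    simp only [mem_inter_iff, mem_compl_iff, mem_empty_iff_false, iff_false, not_and]
    intro h1 h3
    exact h1 (h h3)
  rw [h2]; exact finite_empty

theorem isClosed_union_acc [T1Space S] (X : Set S) : IsClosed (X ∪ Acc X) := by
  rw [← isOpen_compl_iff, isOpen_iff_mem_nhds]
  intro p hp
  rw [mem_compl_iff, mem_union, not_or] at hp
  obtain ⟨U, hU, hpU, hf⟩ := notMem_acc.1 hp.2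
  have h1 : IsOpen (U \ (U ∩ X)) := hU.sdiff hf.isClosed
  refine mem_of_superset (h1.mem_nhds ⟨hpU, fun h => hp.1 h.2⟩) ?_
  rintro q ⟨hq1, hq2⟩ (hq | hq)
  · exact hq2 ⟨hq1, hq⟩
  · exact notMem_acc.2 ⟨U, hU, hq1, hf⟩ hq

theorem isClosed_of_acc_subset [T1Space S] {X : Set S} (h : Acc X ⊆ X) : IsClosed X := by
  have := isClosed_union_acc X
  rwa [union_eq_self_of_subset_right h] at this

theorem acc_image (h : S ≃ₜ S) (X : Set S) : Acc (h '' X) = h '' Acc X := by
  have key : ∀ (h : S ≃ₜ S) (X : Set S), h '' Acc X ⊆ Acc (h '' X) := by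
    intro h X
    rintro _ ⟨p, hp, rfl⟩ U hU
    have h1 : h ⁻¹' U ∈ 𝓝 p := h.continuous.continuousAt.preimage_mem_nhds hU
    have h2 := (hp _ h1).image (f := h) h.injective.injOn
    refine h2.mono ?_
    rintro _ ⟨x, ⟨hx1, hx2⟩, rfl⟩
    exact ⟨hx1, x, hx2, rfl⟩
  apply Subset.antisymm _ (key h X)
  have h1 := key h.symm (h '' X)
  rw [← image_comp] at h1
  have h2 : (h.symm ∘ h : S → S) = id := by funext x; simp
  rw [h2, image_id] at h1
  intro p hp
  have := h1 ⟨p, hp, rfl⟩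
  exact ⟨h.symm p, this, by simp⟩

theorem Lm.subset_acc {X : Set S} (hX : X.Infinite) : Lm X ⊆ Acc X := by
  intro p hp U hU hf
  apply hX
  refine ((hp U hU).union hf).subset ?_
  intro x hx
  by_cases h : x ∈ U
  · exact Or.inr ⟨h, hx⟩
  · exact Or.inl ⟨hx, h⟩

/-- countably infinite sets that converge to all their accumulation points -/
def Good (X : Set S) : Prop := X.Infinite ∧ X.Countable ∧ Acc X ⊆ Lm X

theorem Good.acc_eq {X Y : Set S} (h : Good X) (hY : Y ⊆ X) (hi : Y.Infinite) : Acc Y = Acc X :=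
  Subset.antisymm (Acc.mono hY) fun _ hp => Lm.subset_acc hi (Lm.anti hY (h.2.2 hp))

theorem Good.sub {X Y : Set S} (h : Good X) (hY : Y ⊆ X) (hi : Y.Infinite) : Good Y :=
  ⟨hi, h.2.1.mono hY, by rw [h.acc_eq hY hi]; exact h.2.2.trans (Lm.anti hY)⟩

theorem lm_image (h : S ≃ₜ S) (X : Set S) : h '' Lm X ⊆ Lm (h '' X) := by
  rintro _ ⟨p, hp, rfl⟩ U hU
  have h1 : h ⁻¹' U ∈ 𝓝 p := h.continuous.continuousAt.preimage_mem_nhds hU
  refine ((hp _ h1).image h).subset ?_
  rintro _ ⟨⟨x, hx, rfl⟩, hxU⟩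
  exact ⟨x, ⟨hx, hxU⟩, rfl⟩

theorem Good.image {X : Set S} (hX : Good X) (h : S ≃ₜ S) : Good (h '' X) := by
  refine ⟨hX.1.image h.injective.injOn, hX.2.1.image _, ?_⟩
  rw [acc_image]
  exact (image_mono hX.2.2).trans (lm_image h X)

/-- if a closed set contains infinitely many points of a good set, it contains all its
accumulation points -/
theorem Good.acc_subset_of_inter {X C : Set S} (hX : Good X) (hC : IsClosed C)
    (hi : (C ∩ X).Infinite) : Acc X ⊆ C := by
  rw [← hX.acc_eq inter_subset_right hi]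
  exact acc_subset hC inter_subset_left

/-- all points of `X` are isolated in `X` -/
def Iso (X : Set S) : Prop := ∀ x ∈ X, x ∉ Acc X

theorem Iso.sub {X Y : Set S} (h : Iso X) (hY : Y ⊆ X) : Iso Y := fun x hx hxa =>
  h x (hY hx) (Acc.mono hY hxa)

theorem Iso.nhd [T1Space S] {X : Set S} (h : Iso X) {x : S} (hx : x ∈ X) :
    ∃ U, IsOpen U ∧ x ∈ U ∧ U ∩ X ⊆ {x} := by
  obtain ⟨U, hU, hxU, hf⟩ := notMem_acc.1 (h x hx)
  refine ⟨U \ ((U ∩ X) \ {x}), hU.sdiff (hf.subset sdiff_subset).isClosed,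
    ⟨hxU, fun h => h.2 rfl⟩, ?_⟩
  rintro y ⟨⟨hy1, hy2⟩, hy3⟩
  by_contra hne
  exact hy2 ⟨⟨hy1, hy3⟩, hne⟩

theorem mkHomeo {A B : Set S} (f : A ≃ B)
    (h1 : ∀ C : Set S, IsClosed C → ∃ C', IsClosed C' ∧ ∀ a : A, (a : S) ∈ C ↔ (f a : S) ∈ C')
    (h2 : ∀ C' : Set S, IsClosed C' → ∃ C, IsClosed C ∧ ∀ a : A, (a : S) ∈ C ↔ (f a : S) ∈ C') :
    Nonempty (A ≃ₜ B) := by
  refine ⟨{ toEquiv := f, continuous_toFun := ?_, continuous_invFun := ?_ }⟩
  · rw [continuous_iff_isClosed]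
    intro K hK
    obtain ⟨C', hC', rfl⟩ := isClosed_induced_iff.1 hK
    obtain ⟨C, hC, h⟩ := h2 C' hC'
    refine isClosed_induced_iff.2 ⟨C, hC, ?_⟩
    ext a
    exact h a
  · rw [continuous_iff_isClosed]
    intro K hK
    obtain ⟨C, hC, rfl⟩ := isClosed_induced_iff.1 hK
    obtain ⟨C', hC', h⟩ := h1 C hC
    refine isClosed_induced_iff.2 ⟨C', hC', ?_⟩
    ext b
    have := h (f.symm b)
    rw [f.apply_symm_apply] at this
    exact this.symm

theorem exists_equiv {A B : Set S} (hA : A.Infinite) (hA' : A.Countable) (hB : B.Infinite)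
    (hB' : B.Countable) : Nonempty (A ≃ B) := by
  have := hA.to_subtype
  have := hB.to_subtype
  have := hA'.to_subtype
  have := hB'.to_subtype
  exact nonempty_equiv_of_countable

theorem Iso.mem_closure [T1Space S] {X K : Set S} (h : Iso X) (hK : K ⊆ X) {x : S} (hx : x ∈ X) :
    x ∈ closure K ↔ x ∈ K := by
  refine ⟨fun hc => ?_, fun hc => subset_closure hc⟩
  obtain ⟨U, hU, hxU, hs⟩ := h.nhd hx
  obtain ⟨y, hyU, hyK⟩ := mem_closure_iff.1 hc U hU hxU
  have := hs ⟨hyU, hK hyK⟩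
  rw [mem_singleton_iff] at this
  rwa [this] at hyK

theorem iso_conj [T1Space S] (hS : Thin S) {A B : Set S} (hA : A.Infinite) (hA' : A.Countable)
    (hA2 : Iso A) (hB : B.Infinite) (hB' : B.Countable) (hB2 : Iso B) :
    ∃ h : S ≃ₜ S, h '' A = B := by
  obtain ⟨f⟩ := exists_equiv hA hA' hB hB'
  apply hS
  apply mkHomeo f
  · intro C _
    refine ⟨closure {b | ∃ a : A, (a : S) ∈ C ∧ (f a : S) = b}, isClosed_closure, fun a => ?_⟩
    rw [hB2.mem_closure (by rintro b ⟨a, _, rfl⟩; exact (f a).2) (f a).2]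
    constructor
    · intro h; exact ⟨a, h, rfl⟩
    · rintro ⟨a', h1, h2⟩
      have := f.injective (Subtype.ext h2)
      rwa [this] at h1
  · intro C' _
    refine ⟨closure {a | ∃ a' : A, (f a' : S) ∈ C' ∧ (a' : S) = a}, isClosed_closure,
      fun a => ?_⟩
    rw [hA2.mem_closure (by rintro b ⟨a, _, rfl⟩; exact a.2) a.2]
    constructor
    · rintro ⟨a', h1, h2⟩
      have := Subtype.ext h2
      rwa [this] at h1
    · intro h; exact ⟨a, h, rfl⟩

/-- good sets contained in the set of their accumulation points -/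
def CG (X : Set S) : Prop := Good X ∧ X ⊆ Acc X

theorem cg_conj [T1Space S] (hS : Thin S) {A B : Set S} (hA : CG A) (hB : CG B) :
    ∃ h : S ≃ₜ S, h '' A = B := by
  obtain ⟨f⟩ := exists_equiv hA.1.1 hA.1.2.1 hB.1.1 hB.1.2.1
  apply hS
  apply mkHomeo f
  · intro C hC
    by_cases hf : (C ∩ A).Finite
    · have : Finite (C ∩ A : Set S) := hf
      have hfin : {b | ∃ a : A, (a : S) ∈ C ∧ (f a : S) = b}.Finite := by
        have h1 : {a : A | (a : S) ∈ C}.Finite := by
          apply Finite.of_finite_image (f := Subtype.val) _ Subtype.val_injective.injOn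
          refine hf.subset ?_
          rintro _ ⟨a, ha, rfl⟩
          exact ⟨ha, a.2⟩
        refine (h1.image (fun a => (f a : S))).subset ?_
        rintro b ⟨a, ha, rfl⟩
        exact ⟨a, ha, rfl⟩
      refine ⟨_, hfin.isClosed, fun a => ?_⟩
      constructor
      · intro h; exact ⟨a, h, rfl⟩
      · rintro ⟨a', h1, h2⟩
        have := f.injective (Subtype.ext h2)
        rwa [this] at h1
    · refine ⟨univ, isClosed_univ, fun a => ?_⟩
      have := hA.1.acc_subset_of_inter hC hf (hA.2 a.2)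
      exact ⟨fun _ => mem_univ _, fun _ => this⟩
  · intro C hC
    by_cases hf : (C ∩ B).Finite
    · have hfin : {a | ∃ a' : A, (f a' : S) ∈ C ∧ (a' : S) = a}.Finite := by
        have h1 : {a : A | (f a : S) ∈ C}.Finite := by
          apply Finite.of_finite_image (f := fun a => (f a : S)) _
            (Subtype.val_injective.comp f.injective).injOn
          refine hf.subset ?_
          rintro _ ⟨a, ha, rfl⟩
          exact ⟨ha, (f a).2⟩
        refine (h1.image Subtype.val).subset ?_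
        rintro b ⟨a, ha, rfl⟩
        exact ⟨a, ha, rfl⟩
      refine ⟨_, hfin.isClosed, fun a => ?_⟩
      constructor
      · rintro ⟨a', h1, h2⟩
        have := Subtype.ext h2
        rwa [this] at h1
      · intro h; exact ⟨a, h, rfl⟩
    · refine ⟨univ, isClosed_univ, fun a => ?_⟩
      have := hB.1.acc_subset_of_inter hC hf (hB.2 (f a).2)
      exact ⟨fun _ => this, fun _ => mem_univ _⟩

end Pool.Agent.H376R4
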