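import Pool.Agent.H376R4.Thin1

/-!
# Thin spaces: existence of good sets in second countable spaces, and the case of an isolated
good set
-/

set_option autoImplicit false

open Set Topology Filter Function

universe u

namespace Pool.Agent.H376R4

variable {S : Type u} [TopologicalSpace S]

/-- pseudo-intersection of a decreasing sequence of infinite sets -/
theorem pick_seq (s : ℕ → Set S) (hs : Antitone s) (hi : ∀ n, (s n).Infinite) :
    ∃ Z ⊆ s 0, Z.Infinite ∧ Z.Countable ∧ ∀ n, (Z \ s n).Finite := by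
  classical
  obtain ⟨f, hf1, hf2⟩ := exists_seq_of_forall_finset_exists (α := ℕ × S)
    (fun p => p.2 ∈ s p.1) (fun p q => p.1 < q.1 ∧ p.2 ≠ q.2) (by
      intro F _
      obtain ⟨N, hN⟩ : ∃ N, ∀ p ∈ F, p.1 < N := by
        refine ⟨F.sup Prod.fst + 1, fun p hp => ?_⟩
        exact Nat.lt_succ_of_le (Finset.le_sup (f := Prod.fst) hp)
      obtain ⟨y, hy1, hy2⟩ := (hi N).exists_notMem_finset (F.image Prod.snd)
      refine ⟨(N, y), hy1, fun p hp => ⟨hN p hp, ?_⟩⟩
      intro h
      exact hy2 (Finset.mem_image.2 ⟨p, hp, h⟩))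
  have hle : ∀ k, k ≤ (f k).1 := by
    intro k
    induction k with
    | zero => exact Nat.zero_le _
    | succ k ih => exact Nat.succ_le_of_lt (lt_of_le_of_lt ih (hf2 k (k+1) (Nat.lt_succ_self k)).1)
  have hmem : ∀ k n, n ≤ k → (f k).2 ∈ s n := fun k n hnk => hs (hnk.trans (hle k)) (hf1 k)
  have hinj : Injective (fun k => (f k).2) := by
    intro a b hab
    by_contra hne
    rcases lt_or_gt_of_ne hne with h | h
    · exact (hf2 a b h).2 hab
    · exact (hf2 b a h).2 hab.symm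
  refine ⟨range (fun k => (f k).2), ?_, infinite_range_of_injective hinj, countable_range _, ?_⟩
  · rintro _ ⟨k, rfl⟩
    exact hmem k 0 (Nat.zero_le _)
  · intro n
    refine ((finite_lt_nat n).image (fun k => (f k).2)).subset ?_
    rintro _ ⟨⟨k, rfl⟩, hk⟩
    refine ⟨k, ?_, rfl⟩
    by_contra hlt
    exact hk (hmem k n (not_lt.1 hlt))

open Classical in
/-- the decreasing sequence deciding membership in the basic open sets -/
noncomputable def nx (e : ℕ → Set S) (X : Set S) : ℕ → Set S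
  | 0 => X
  | n + 1 => if (nx e X n ∩ e n).Infinite then nx e X n ∩ e n else nx e X n \ e n

theorem exists_good [SecondCountableTopology S] (X : Set S) (hX : X.Infinite) :
    ∃ Y ⊆ X, Good Y := by
  classical
  obtain ⟨x0, hx0⟩ := hX.nonempty
  have hB := TopologicalSpace.isBasis_countableBasis S
  have hne : (TopologicalSpace.countableBasis S).Nonempty := by
    obtain ⟨v, hv, _⟩ := hB.exists_subset_of_mem_open (mem_univ x0) isOpen_univ
    exact ⟨v, hv⟩
  obtain ⟨e, he⟩ := (TopologicalSpace.countable_countableBasis S).exists_eq_range hne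
  have hstep : ∀ n, nx e X (n+1) = if (nx e X n ∩ e n).Infinite then nx e X n ∩ e n
    else nx e X n \ e n := fun n => rfl
  have hsub : ∀ n, nx e X (n+1) ⊆ nx e X n := by
    intro n
    rw [hstep]
    split_ifs
    · exact inter_subset_left
    · exact sdiff_subset
  have hanti : Antitone (nx e X) := antitone_nat_of_succ_le hsub
  have hinf : ∀ n, (nx e X n).Infinite := by
    intro n
    induction n with
    | zero => exact hX
    | succ n ih =>
      rw [hstep]
      split_ifs with h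
      · exact h
      · intro hf
        apply ih
        rw [not_infinite] at h
        refine (h.union hf).subset ?_
        intro x hx
        by_cases hxe : x ∈ e n
        · exact Or.inl ⟨hx, hxe⟩
        · exact Or.inr ⟨hx, hxe⟩
  obtain ⟨Y, hY0, hYi, hYc, hYf⟩ := pick_seq (nx e X) hanti hinf
  refine ⟨Y, hY0, hYi, hYc, ?_⟩
  intro p hp U hU
  obtain ⟨V, hV, hpV, hVU⟩ := hB.mem_nhds_iff.1 hU
  rw [he] at hV
  obtain ⟨j, rfl⟩ := hV
  have hpj : e j ∈ 𝓝 p := hB.mem_nhds (by rw [he]; exact ⟨j, rfl⟩) hpV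
  have h1 := hp _ hpj
  have h2 := hYf (j+1)
  by_cases hc : (nx e X j ∩ e j).Infinite
  · have h3 : nx e X (j+1) = nx e X j ∩ e j := by rw [hstep, if_pos hc]
    refine h2.subset ?_
    rintro y ⟨hy1, hy2⟩
    refine ⟨hy1, fun hy3 => hy2 (hVU ?_)⟩
    rw [h3] at hy3
    exact hy3.2
  · exfalso
    have h3 : nx e X (j+1) = nx e X j \ e j := by rw [hstep, if_neg hc]
    apply h1
    refine h2.subset ?_
    rintro y ⟨hy1, hy2⟩
    refine ⟨hy2, fun hy3 => ?_⟩
    rw [h3] at hy3
    exact hy3.2 hy1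

theorem good_split {Y : Set S} (hY : Good Y) : ∃ Z ⊆ Y, (Good Z ∧ Iso Z) ∨ CG Z := by
  by_cases h : (Y ∩ Acc Y).Infinite
  · refine ⟨Y ∩ Acc Y, inter_subset_left, Or.inr ⟨hY.sub inter_subset_left h, ?_⟩⟩
    rw [hY.acc_eq inter_subset_left h]
    exact inter_subset_right
  · rw [not_infinite] at h
    have h2 : (Y \ Acc Y).Infinite := by
      intro hf
      apply hY.1
      refine (h.union hf).subset ?_
      intro x hx
      by_cases hxe : x ∈ Acc Y
      · exact Or.inl ⟨hx, hxe⟩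
      · exact Or.inr ⟨hx, hxe⟩
    refine ⟨Y \ Acc Y, sdiff_subset, Or.inl ⟨hY.sub sdiff_subset h2, ?_⟩⟩
    intro x hx hxa
    rw [hY.acc_eq sdiff_subset h2] at hxa
    exact hx.2 hxa

theorem closed_conj (hS : Thin S) {A B : Set S} (h : Nonempty (A ≃ₜ B)) (hA : IsClosed A) :
    IsClosed B := by
  obtain ⟨g, rfl⟩ := hS _ _ h
  exact g.isClosedMap _ hA

theorem glueEquiv {D L E M : Set S} (h1 : Disjoint D L) (h2 : Disjoint E M) (f : D ≃ E)
    (g : L ≃ M) : ∃ φ : (D ∪ L : Set S) ≃ (E ∪ M : Set S),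
      (∀ x (hx : x ∈ D), (φ ⟨x, Or.inl hx⟩ : S) = f ⟨x, hx⟩) ∧
      (∀ x (hx : x ∈ L), (φ ⟨x, Or.inr hx⟩ : S) = g ⟨x, hx⟩) := by
  classical
  refine ⟨(Equiv.Set.union h1).trans ((Equiv.sumCongr f g).trans (Equiv.Set.union h2).symm),
    ?_, ?_⟩
  · intro x hx
    simp only [Equiv.trans_apply]
    rw [Equiv.Set.union_apply_left h1 (a := ⟨x, Or.inl hx⟩) hx]
    simp
  · intro x hx
    simp only [Equiv.trans_apply]
    rw [Equiv.Set.union_apply_right h1 (a := ⟨x, Or.inr hx⟩) hx]
    simp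

/-- sets `D` off the closed set `L` such that closed sets with infinite trace on `D` contain `L`
and every subset of `D` is the trace of a closed set containing `L` -/
structure Att (D L : Set S) : Prop where
  inf : D.Infinite
  cnt : D.Countable
  dis : Disjoint D L
  c1 : ∀ C, IsClosed C → (C ∩ D).Infinite → L ⊆ C
  c2 : ∀ K ⊆ D, ∃ K', IsClosed K' ∧ K' ∩ D = K ∧ L ⊆ K'

theorem att_half [T1Space S] {D E L : Set S} (hL : IsClosed L) (hD : Att D L) (hE : Att E L)
    (f : D ≃ E) (φ : (D ∪ L : Set S) ≃ (E ∪ L : Set S))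
    (h1 : ∀ x (hx : x ∈ D), (φ ⟨x, Or.inl hx⟩ : S) = f ⟨x, hx⟩)
    (h2 : ∀ x (hx : x ∈ L), (φ ⟨x, Or.inr hx⟩ : S) = x) (C : Set S) (hC : IsClosed C) :
    ∃ C', IsClosed C' ∧ ∀ a : (D ∪ L : Set S), (a : S) ∈ C ↔ (φ a : S) ∈ C' := by
  have hKE : {b | ∃ a : D, (a : S) ∈ C ∧ (f a : S) = b} ⊆ E := by
    rintro b ⟨a, _, rfl⟩
    exact (f a).2
  have hKi : ∀ a : D, (f a : S) ∈ {b | ∃ a : D, (a : S) ∈ C ∧ (f a : S) = b} ↔ (a : S) ∈ C := by
    intro a
    constructor
    · rintro ⟨a', h3, h4⟩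
      have := f.injective (Subtype.ext h4)
      rwa [this] at h3
    · intro h
      exact ⟨a, h, rfl⟩
  by_cases hf : (C ∩ D).Finite
  · have hfin : {b | ∃ a : D, (a : S) ∈ C ∧ (f a : S) = b}.Finite := by
      have h1 : {a : D | (a : S) ∈ C}.Finite := by
        apply Finite.of_finite_image (f := Subtype.val) _ Subtype.val_injective.injOn
        refine hf.subset ?_
        rintro _ ⟨a, ha, rfl⟩
        exact ⟨ha, a.2⟩
      refine (h1.image (fun a => (f a : S))).subset ?_
      rintro b ⟨a, ha, rfl⟩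
      exact ⟨a, ha, rfl⟩
    refine ⟨_, hfin.isClosed.union (hC.inter hL), ?_⟩
    rintro ⟨a, ha | ha⟩
    · rw [h1 a ha]
      constructor
      · intro h
        exact Or.inl ((hKi ⟨a, ha⟩).2 h)
      · rintro (h | h)
        · exact (hKi ⟨a, ha⟩).1 h
        · exact absurd h.2 (disjoint_left.1 hE.dis (f ⟨a, ha⟩).2)
    · rw [h2 a ha]
      constructor
      · intro h
        exact Or.inr ⟨h, ha⟩
      · rintro (h | h)
        · exact absurd ha (disjoint_left.1 hE.dis (hKE h))
        · exact h.1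
  · have hLC := hD.c1 C hC hf
    obtain ⟨K', hK', hK1, hK2⟩ := hE.c2 _ hKE
    refine ⟨K', hK', ?_⟩
    rintro ⟨a, ha | ha⟩
    · rw [h1 a ha]
      have h3 : ((f ⟨a, ha⟩ : S) ∈ K') ↔ ((f ⟨a, ha⟩ : S) ∈ K' ∩ E) :=
        ⟨fun h => ⟨h, (f ⟨a, ha⟩).2⟩, fun h => h.1⟩
      rw [h3, hK1]
      exact (hKi ⟨a, ha⟩).symm
    · rw [h2 a ha]
      exact ⟨fun _ => hK2 ha, fun _ => hLC ha⟩

theorem att_homeo [T1Space S] {D E L : Set S} (hL : IsClosed L) (hD : Att D L) (hE : Att E L) :
    Nonempty ((D ∪ L : Set S) ≃ₜ (E ∪ L : Set S)) := by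
  obtain ⟨f⟩ := exists_equiv hD.inf hD.cnt hE.inf hE.cnt
  obtain ⟨φ, h1, h2⟩ := glueEquiv hD.dis hE.dis f (Equiv.refl L)
  have h2' : ∀ x (hx : x ∈ L), (φ ⟨x, Or.inr hx⟩ : S) = x := fun x hx => h2 x hx
  have h3 : ∀ x (hx : x ∈ E), (φ.symm ⟨x, Or.inl hx⟩ : S) = f.symm ⟨x, hx⟩ := by
    intro x hx
    have h4 : φ ⟨f.symm ⟨x, hx⟩, Or.inl (f.symm ⟨x, hx⟩).2⟩ = ⟨x, Or.inl hx⟩ := by
      apply Subtype.ext
      rw [h1 _ (f.symm ⟨x, hx⟩).2]
      simp
    rw [← h4, Equiv.symm_apply_apply]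
  have h5 : ∀ x (hx : x ∈ L), (φ.symm ⟨x, Or.inr hx⟩ : S) = x := by
    intro x hx
    have h4 : φ ⟨x, Or.inr hx⟩ = ⟨x, Or.inr hx⟩ := Subtype.ext (h2' x hx)
    have h6 := congrArg φ.symm h4
    rw [Equiv.symm_apply_apply] at h6
    rw [← h6]
  apply mkHomeo φ
  · exact att_half hL hD hE f φ h1 h2'
  · intro C' hC'
    obtain ⟨C, hC, h⟩ := att_half hL hE hD f.symm φ.symm h3 h5 C' hC'
    refine ⟨C, hC, fun a => ?_⟩
    have := h (φ a)
    rw [Equiv.symm_apply_apply] at this
    exact this.symm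

theorem Iso.image {X : Set S} (hX : Iso X) (h : S ≃ₜ S) : Iso (h '' X) := by
  rintro _ ⟨x, hx, rfl⟩ hxa
  rw [acc_image] at hxa
  obtain ⟨y, hy, hyx⟩ := hxa
  rw [h.injective hyx] at hy
  exact hX x hx hy

theorem att_of [T1Space S] {D L : Set S} (hD : Good D) (hDi : Iso D) (hL : L ⊆ Acc D) :
    Att D L where
  inf := hD.1
  cnt := hD.2.1
  dis := disjoint_left.2 fun x hx hxL => hDi x hx (hL hxL)
  c1 := fun C hC hi => hL.trans (hD.acc_subset_of_inter hC hi)
  c2 := by
    intro K hK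
    refine ⟨K ∪ Acc D, ?_, ?_, hL.trans subset_union_right⟩
    · apply isClosed_of_acc_subset
      refine (Acc.union _ _).trans ?_
      refine union_subset ((Acc.mono hK).trans subset_union_right)
        ((acc_subset (isClosed_acc D) Subset.rfl).trans subset_union_right)
    · ext x
      constructor
      · rintro ⟨h | h, h2⟩
        · exact h
        · exact absurd h (hDi x h2)
      · intro h
        exact ⟨Or.inl h, hK h⟩

/-- Case B: no thin T1 space has a good set of isolated points with an accumulation point -/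
theorem caseB [T1Space S] (hS : Thin S) (hom : ∀ x y : S, ∃ h : S ≃ₜ S, h x = y)
    {D0 : Set S} (hD0 : Good D0) (hD0i : Iso D0) (hne : (Acc D0).Nonempty) : False := by
  have all : ∀ D : Set S, D.Infinite → D.Countable → Iso D → Good D := by
    intro D h1 h2 h3
    obtain ⟨h, rfl⟩ := iso_conj hS hD0.1 hD0.2.1 hD0i h1 h2 h3
    exact hD0.image h
  have nostrict : ∀ D E : Set S, Good D → Iso D → Good E → Iso E → Acc D ⊆ Acc E →
      Acc E ⊆ Acc D := by
    intro D E hD hDi hE hEi hsub p hp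
    by_contra hpD
    have h1 := att_homeo (isClosed_acc D) (att_of hD hDi Subset.rfl) (att_of hE hEi hsub)
    have h2 := closed_conj hS h1 (isClosed_union_acc D)
    have h3 : p ∈ E ∪ Acc D := acc_subset h2 subset_union_left hp
    rcases h3 with h3 | h3
    · exact hEi p h3 hp
    · exact hpD h3
  have cmp : ∀ D E : Set S, Good D → Iso D → Good E → Iso E → Acc D ⊆ Acc E := by
    intro D E hD hDi hE hEi
    by_cases h1 : (Acc E ∩ D).Infinite
    · exact hD.acc_subset_of_inter (isClosed_acc E) h1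
    by_cases h2 : (Acc D ∩ E).Infinite
    · exact nostrict E D hE hEi hD hDi (hE.acc_subset_of_inter (isClosed_acc D) h2)
    rw [not_infinite] at h1 h2
    have h3 : (D \ Acc E).Infinite := by
      intro hf
      apply hD.1
      refine (h1.union hf).subset ?_
      intro x hx
      by_cases hxe : x ∈ Acc E
      · exact Or.inl ⟨hxe, hx⟩
      · exact Or.inr ⟨hx, hxe⟩
    have h4 : (E \ Acc D).Infinite := by
      intro hf
      apply hE.1
      refine (h2.union hf).subset ?_
      intro x hx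
      by_cases hxe : x ∈ Acc D
      · exact Or.inl ⟨hxe, hx⟩
      · exact Or.inr ⟨hx, hxe⟩
    have h5 : Iso ((D \ Acc E) ∪ (E \ Acc D)) := by
      intro x hx hxa
      rcases Acc.union _ _ hxa with ha | ha
      · have ha' := Acc.mono sdiff_subset ha
        rcases hx with hx | hx
        · exact hDi x hx.1 ha'
        · exact hx.2 ha'
      · have ha' := Acc.mono sdiff_subset ha
        rcases hx with hx | hx
        · exact hx.2 ha'
        · exact hEi x hx.1 ha'
    have h6 := all _ (h3.mono subset_union_left)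
      ((hD.2.1.mono sdiff_subset).union (hE.2.1.mono sdiff_subset)) h5
    have h7 := h6.acc_eq subset_union_left h3
    have h8 := h6.acc_eq subset_union_right h4
    rw [← hD.acc_eq sdiff_subset h3, h7, ← h8, hE.acc_eq sdiff_subset h4]
  obtain ⟨p, hp⟩ := hne
  obtain ⟨q, hq⟩ := hD0.1.nonempty
  obtain ⟨h, hh⟩ := hom p q
  have h1 := cmp _ _ (hD0.image h) (hD0i.image h) hD0 hD0i
  rw [acc_image] at h1
  exact hD0i q hq (h1 ⟨p, hp, hh⟩)

end Pool.Agent.H376R4
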