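import Pool.Agent.H376R4.Thin2

/-!
# Thin spaces: the case where sets of isolated points do not accumulate
-/

set_option autoImplicit false

open Set Topology Filter Function

universe u

namespace Pool.Agent.H376R4

variable {S : Type u} [TopologicalSpace S]

theorem exists_lm [FirstCountableTopology S] {C : Set S} {x : S} (hx : x ∈ Acc C) :
    ∃ Z ⊆ C, Z.Infinite ∧ Z.Countable ∧ x ∈ Lm Z := by
  obtain ⟨U, hU⟩ := (𝓝 x).exists_antitone_basis
  obtain ⟨Z, h0, h1, h2, h3⟩ := pick_seq (fun n => U n ∩ C)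
    (fun m n hmn => inter_subset_inter_left _ (hU.antitone hmn)) (fun n => hx _ (hU.mem n))
  refine ⟨Z, h0.trans inter_subset_right, h1, h2, ?_⟩
  intro V hV
  obtain ⟨n, hn⟩ := hU.mem_iff.1 hV
  refine (h3 n).subset ?_
  rintro z ⟨hz1, hz2⟩
  exact ⟨hz1, fun h => hz2 (hn h.1)⟩

theorem CG.image {X : Set S} (hX : CG X) (h : S ≃ₜ S) : CG (h '' X) :=
  ⟨hX.1.image h, by rw [acc_image]; exact image_mono hX.2⟩

theorem fin_img {D E : Set S} (f : D ≃ E) {C : Set S} (hf : (C ∩ D).Finite) :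
    {b | ∃ a : D, (a : S) ∈ C ∧ (f a : S) = b}.Finite := by
  have h1 : {a : D | (a : S) ∈ C}.Finite := by
    apply Finite.of_finite_image (f := Subtype.val) _ Subtype.val_injective.injOn
    refine hf.subset ?_
    rintro _ ⟨a, ha, rfl⟩
    exact ⟨ha, a.2⟩
  refine (h1.image (fun a => (f a : S))).subset ?_
  rintro b ⟨a, ha, rfl⟩
  exact ⟨a, ha, rfl⟩

theorem img_iff {D E : Set S} (f : D ≃ E) (C : Set S) (a : D) :
    (f a : S) ∈ {b | ∃ a : D, (a : S) ∈ C ∧ (f a : S) = b} ↔ (a : S) ∈ C := by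
  constructor
  · rintro ⟨a', h3, h4⟩
    have := f.injective (Subtype.ext h4)
    rwa [this] at h3
  · intro h
    exact ⟨a, h, rfl⟩

theorem glueEquiv2 {D L E M : Set S} (h1 : Disjoint D L) (h2 : Disjoint E M) (f : D ≃ E)
    (g : L ≃ M) : ∃ φ : (D ∪ L : Set S) ≃ (E ∪ M : Set S),
      (∀ x (hx : x ∈ D), (φ ⟨x, Or.inl hx⟩ : S) = f ⟨x, hx⟩) ∧
      (∀ x (hx : x ∈ L), (φ ⟨x, Or.inr hx⟩ : S) = g ⟨x, hx⟩) ∧
      (∀ x (hx : x ∈ E), (φ.symm ⟨x, Or.inl hx⟩ : S) = f.symm ⟨x, hx⟩) ∧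
      (∀ x (hx : x ∈ M), (φ.symm ⟨x, Or.inr hx⟩ : S) = g.symm ⟨x, hx⟩) := by
  obtain ⟨φ, h3, h4⟩ := glueEquiv h1 h2 f g
  refine ⟨φ, h3, h4, ?_, ?_⟩
  · intro x hx
    have h5 : φ ⟨f.symm ⟨x, hx⟩, Or.inl (f.symm ⟨x, hx⟩).2⟩ = ⟨x, Or.inl hx⟩ := by
      apply Subtype.ext
      rw [h3 _ (f.symm ⟨x, hx⟩).2]
      simp
    rw [← h5, Equiv.symm_apply_apply]
  · intro x hx
    have h5 : φ ⟨g.symm ⟨x, hx⟩, Or.inr (g.symm ⟨x, hx⟩).2⟩ = ⟨x, Or.inr hx⟩ := by
      apply Subtype.ext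
      rw [h4 _ (g.symm ⟨x, hx⟩).2]
      simp
    rw [← h5, Equiv.symm_apply_apply]

/-- normalized strict pairs of good sets contained in their accumulation sets -/
structure SP (E F : Set S) : Prop where
  e : CG E
  f : CG F
  sub : F ⊆ Acc E
  dis : Disjoint E (Acc F)

theorem sp_half [T1Space S] {E F E' F' : Set S} (h : SP E F) (h' : SP E' F') (f : E ≃ E')
    (g : F ≃ F') (φ : (E ∪ F : Set S) ≃ (E' ∪ F' : Set S))
    (h1 : ∀ x (hx : x ∈ E), (φ ⟨x, Or.inl hx⟩ : S) = f ⟨x, hx⟩)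
    (h2 : ∀ x (hx : x ∈ F), (φ ⟨x, Or.inr hx⟩ : S) = g ⟨x, hx⟩) (C : Set S) (hC : IsClosed C) :
    ∃ C', IsClosed C' ∧ ∀ a : (E ∪ F : Set S), (a : S) ∈ C ↔ (φ a : S) ∈ C' := by
  by_cases hE : (C ∩ E).Infinite
  · have h3 := h.e.1.acc_subset_of_inter hC hE
    refine ⟨univ, isClosed_univ, ?_⟩
    rintro ⟨a, ha | ha⟩
    · exact ⟨fun _ => mem_univ _, fun _ => h3 (h.e.2 ha)⟩
    · exact ⟨fun _ => mem_univ _, fun _ => h3 (h.sub ha)⟩
  rw [not_infinite] at hE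
  by_cases hF : (C ∩ F).Infinite
  · have h3 := h.f.1.acc_subset_of_inter hC hF
    refine ⟨_, (fin_img f hE).isClosed.union (isClosed_acc F'), ?_⟩
    rintro ⟨a, ha | ha⟩
    · rw [h1 a ha]
      constructor
      · intro h4
        exact Or.inl ((img_iff f C ⟨a, ha⟩).2 h4)
      · rintro (h4 | h4)
        · exact (img_iff f C ⟨a, ha⟩).1 h4
        · exact absurd h4 (disjoint_left.1 h'.dis (f ⟨a, ha⟩).2)
    · rw [h2 a ha]
      exact ⟨fun _ => Or.inr (h'.f.2 (g ⟨a, ha⟩).2), fun _ => h3 (h.f.2 ha)⟩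
  rw [not_infinite] at hF
  refine ⟨_, ((fin_img f hE).union (fin_img g hF)).isClosed, ?_⟩
  rintro ⟨a, ha | ha⟩
  · rw [h1 a ha]
    constructor
    · intro h4
      exact Or.inl ((img_iff f C ⟨a, ha⟩).2 h4)
    · rintro (h4 | ⟨b, _, hb⟩)
      · exact (img_iff f C ⟨a, ha⟩).1 h4
      · exfalso
        apply disjoint_left.1 h'.dis (f ⟨a, ha⟩).2
        rw [← hb]
        exact h'.f.2 (g b).2
  · rw [h2 a ha]
    constructor
    · intro h4
      exact Or.inr ((img_iff g C ⟨a, ha⟩).2 h4)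
    · rintro (⟨b, _, hb⟩ | h4)
      · exfalso
        apply disjoint_left.1 h'.dis (f b).2
        rw [hb]
        exact h'.f.2 (g ⟨a, ha⟩).2
      · exact (img_iff g C ⟨a, ha⟩).1 h4

theorem sp_homeo [T1Space S] {E F E' F' : Set S} (h : SP E F) (h' : SP E' F') :
    Nonempty ((E ∪ F : Set S) ≃ₜ (E' ∪ F' : Set S)) := by
  obtain ⟨f⟩ := exists_equiv h.e.1.1 h.e.1.2.1 h'.e.1.1 h'.e.1.2.1
  obtain ⟨g⟩ := exists_equiv h.f.1.1 h.f.1.2.1 h'.f.1.1 h'.f.1.2.1
  obtain ⟨φ, h1, h2, h3, h4⟩ := glueEquiv2 (h.dis.mono_right h.f.2) (h'.dis.mono_right h'.f.2) f g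
  apply mkHomeo φ
  · exact sp_half h h' f g φ h1 h2
  · intro C' hC'
    obtain ⟨C, hC, hh⟩ := sp_half h' h f.symm g.symm φ.symm h3 h4 C' hC'
    refine ⟨C, hC, fun a => ?_⟩
    have := hh (φ a)
    rw [Equiv.symm_apply_apply] at this
    exact this.symm

theorem sp_acc {E F : Set S} (h : SP E F) : Acc (E ∪ F) = Acc E := by
  apply Subset.antisymm
  · refine (Acc.union _ _).trans (union_subset Subset.rfl ?_)
    exact acc_subset (isClosed_acc E) h.sub
  · exact Acc.mono subset_union_left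

theorem sp_conj [T1Space S] (hS : Thin S) {E F E' F' : Set S} (h : SP E F) (h' : SP E' F') :
    ∃ k : S ≃ₜ S, k '' Acc E = Acc E' ∧ k '' Acc F = Acc F' := by
  obtain ⟨k, hk⟩ := hS _ _ (sp_homeo h h')
  have h1 : k '' Acc E = Acc E' := by
    rw [← sp_acc h, ← acc_image, hk, sp_acc h']
  refine ⟨k, h1, ?_⟩
  have hg := h.f.1.image k
  have hsub : k '' F ⊆ E' ∪ F' := by rw [← hk]; exact image_mono subset_union_right
  by_cases hi : (k '' F ∩ E').Infinite
  · exfalso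
    have h2 := hg.acc_eq inter_subset_left hi
    have h3 := h'.e.1.acc_eq inter_subset_right hi
    rw [h3, acc_image, ← h1] at h2
    have h4 := k.injective.image_injective h2
    obtain ⟨e, he⟩ := h.e.1.1.nonempty
    have h5 := h.e.2 he
    rw [h4] at h5
    exact disjoint_left.1 h.dis he h5
  · rw [not_infinite] at hi
    have h2 : (k '' F ∩ F').Infinite := by
      intro hf
      apply hg.1
      refine (hi.union hf).subset ?_
      intro x hx
      rcases hsub hx with h3 | h3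
      · exact Or.inl ⟨hx, h3⟩
      · exact Or.inr ⟨hx, h3⟩
    rw [← acc_image, ← hg.acc_eq inter_subset_left h2, h'.f.1.acc_eq inter_subset_right h2]

theorem sp_norm {E F : Set S} (hE : CG E) (hF : CG F) (h : Acc F ⊂ Acc E) :
    SP (E \ Acc F) F ∧ Acc (E \ Acc F) = Acc E := by
  have h1 : (Acc F ∩ E).Finite := by
    rw [← not_infinite]
    intro hi
    exact h.2 (hE.1.acc_subset_of_inter (isClosed_acc F) hi)
  have h2 : (E \ Acc F).Infinite := by
    intro hf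
    apply hE.1.1
    refine (h1.union hf).subset ?_
    intro x hx
    by_cases hxe : x ∈ Acc F
    · exact Or.inl ⟨hxe, hx⟩
    · exact Or.inr ⟨hx, hxe⟩
  have h3 : Acc (E \ Acc F) = Acc E := hE.1.acc_eq sdiff_subset h2
  refine ⟨⟨⟨hE.1.sub sdiff_subset h2, ?_⟩, hF, ?_, ?_⟩, h3⟩
  · rw [h3]; exact sdiff_subset.trans hE.2
  · rw [h3]; exact hF.2.trans h.1
  · exact disjoint_left.2 fun x hx hx2 => hx.2 hx2

theorem strict_conj [T1Space S] (hS : Thin S) {E F E' F' : Set S} (hE : CG E) (hF : CG F)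
    (h : Acc F ⊂ Acc E) (hE' : CG E') (hF' : CG F') (h' : Acc F' ⊂ Acc E') :
    ∃ k : S ≃ₜ S, k '' Acc E = Acc E' ∧ k '' Acc F = Acc F' := by
  obtain ⟨h1, h2⟩ := sp_norm hE hF h
  obtain ⟨h3, h4⟩ := sp_norm hE' hF' h'
  obtain ⟨k, hk1, hk2⟩ := sp_conj hS h1 h3
  rw [h2, h4] at hk1
  exact ⟨k, hk1, hk2⟩

theorem image_ssub (k : S ≃ₜ S) {A B : Set S} (h : A ⊂ B) : k '' A ⊂ k '' B :=
  ⟨image_mono h.1, fun h2 => h.2 ((image_subset_image_iff k.injective).1 h2)⟩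

theorem strict_mid [T1Space S] (hS : Thin S) {E F : Set S} (hE : CG E) (hF : CG F)
    (h : Acc F ⊂ Acc E) : ∃ G, CG G ∧ Acc F ⊂ Acc G ∧ Acc G ⊂ Acc E := by
  obtain ⟨k, hk⟩ := cg_conj hS hF hE
  have h1 : k '' Acc F = Acc E := by rw [← acc_image, hk]
  have h2 : Acc E ⊂ Acc (k '' E) := by
    have := image_ssub k h
    rwa [h1, ← acc_image] at this
  obtain ⟨l, hl1, hl2⟩ := strict_conj hS (hE.image k) hF (h.trans h2) hE hF h
  refine ⟨l '' E, hE.image l, ?_, ?_⟩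
  · have := image_ssub l h
    rwa [hl2, ← acc_image] at this
  · have := image_ssub l h2
    rwa [hl1, ← acc_image] at this

theorem acc_finite {X : Set S} (h : X.Finite) : Acc X = ∅ := by
  ext p
  simp only [mem_empty_iff_false, iff_false]
  intro hp
  exact hp univ univ_mem (h.subset inter_subset_right)

theorem no_strict [T1Space S] [FirstCountableTopology S] (hS : Thin S)
    (hA : ∀ Z : Set S, Z.Infinite → Z.Countable → Iso Z → Acc Z = ∅) {E F : Set S} (hE : CG E)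
    (hF : CG F) (h : Acc F ⊂ Acc E) : False := by
  have step : ∀ G : {G : Set S // CG G ∧ Acc F ⊂ Acc G},
      ∃ G' : {G : Set S // CG G ∧ Acc F ⊂ Acc G}, Acc G'.1 ⊂ Acc G.1 := by
    rintro ⟨G, hG, hFG⟩
    obtain ⟨G', h1, h2, h3⟩ := strict_mid hS hG hF hFG
    exact ⟨⟨G', h1, h2⟩, h3⟩
  choose nxt hnxt using step
  let g : ℕ → {G : Set S // CG G ∧ Acc F ⊂ Acc G} := fun n =>
    Nat.rec ⟨E, hE, h⟩ (fun _ G => nxt G) n
  have hg : ∀ n, Acc (g (n+1)).1 ⊂ Acc (g n).1 := fun n => hnxt (g n)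
  have hanti : Antitone (fun n => Acc (g n).1) := antitone_nat_of_succ_le (fun n => (hg n).1)
  obtain ⟨x, hx⟩ := hF.1.1.nonempty
  have hxF : x ∈ Acc F := hF.2 hx
  obtain ⟨U, hU⟩ := (𝓝 x).exists_antitone_basis
  have hpick : ∀ n, (((g n).1 ∩ U n) \ Acc (g (n+1)).1).Nonempty := by
    intro n
    by_contra hcon
    rw [not_nonempty_iff_eq_empty] at hcon
    have h1 : ((g n).1 \ U n).Finite := (g n).2.1.1.2.2 ((g n).2.2.1 hxF) _ (hU.mem n)
    have h2 : (Acc (g (n+1)).1 ∩ (g n).1).Finite := by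
      rw [← not_infinite]
      intro hi
      exact (hg n).2 ((g n).2.1.1.acc_subset_of_inter (isClosed_acc _) hi)
    apply (g n).2.1.1.1
    refine (h1.union h2).subset ?_
    intro y hy
    by_cases hyU : y ∈ U n
    · refine Or.inr ⟨?_, hy⟩
      by_contra hya
      have : y ∈ (((g n).1 ∩ U n) \ Acc (g (n+1)).1) := ⟨⟨hy, hyU⟩, hya⟩
      rw [hcon] at this
      exact this
    · exact Or.inl ⟨hy, hyU⟩
  choose z hz using hpick
  have hz1 : ∀ n, z n ∉ Acc (g (n+1)).1 := fun n => (hz n).2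
  have hz2 : ∀ n m, n < m → z m ∈ Acc (g (n+1)).1 := by
    intro n m hnm
    exact hanti (Nat.succ_le_of_lt hnm) ((g m).2.1.2 (hz m).1.1)
  have hinj : Injective z := by
    intro a b hab
    by_contra hne
    rcases lt_or_gt_of_ne hne with h1 | h1
    · exact hz1 a (hab ▸ hz2 a b h1)
    · exact hz1 b (hab ▸ hz2 b a h1)
  have hinf : (range z).Infinite := infinite_range_of_injective hinj
  have hiso : Iso (range z) := by
    rintro _ ⟨n, rfl⟩ hxa
    have h1 : range z ⊆ z '' {k | k < n + 1} ∪ Acc (g (n+1)).1 := by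
      rintro _ ⟨m, rfl⟩
      by_cases hm : m < n + 1
      · exact Or.inl ⟨m, hm, rfl⟩
      · exact Or.inr (hz2 n m (by omega))
    rcases Acc.union _ _ (Acc.mono h1 hxa) with h2 | h2
    · rw [acc_finite ((finite_lt_nat (n+1)).image z)] at h2
      exact h2
    · exact hz1 n (acc_subset (isClosed_acc _) Subset.rfl h2)
  have hxl : x ∈ Lm (range z) := by
    intro V hV
    obtain ⟨n, hn⟩ := hU.mem_iff.1 hV
    refine ((finite_lt_nat n).image z).subset ?_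
    rintro _ ⟨⟨m, rfl⟩, hm⟩
    refine ⟨m, ?_, rfl⟩
    by_contra hlt
    exact hm (hn (hU.antitone (not_lt.1 hlt) (hz m).1.2))
  have h1 := Lm.subset_acc hinf hxl
  rw [hA _ hinf (countable_range z) hiso] at h1
  exact h1

theorem sh_half [T1Space S] {A D A1 A2 : Set S} (hAc : IsClosed A) (hA1 : A1 ⊆ A) (φ : A1 ≃ A2)
    (hφ : ∀ a, (φ a : S) ∈ D ∨ (φ a : S) = a)
    (hprop : ∀ C, IsClosed C → C ⊆ A → C ≠ A → Acc C = ∅)
    (hP : ∀ X Y : Set S, X ⊆ Y ∪ D → (Y.Finite → X.Finite) → Y ⊆ A → Acc Y = ∅ → Acc X = ∅)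
    (C : Set S) (hC : IsClosed C) :
    ∃ C', IsClosed C' ∧ ∀ a : A1, (a : S) ∈ C ↔ (φ a : S) ∈ C' := by
  by_cases h : A1 ⊆ C
  · exact ⟨univ, isClosed_univ, fun a => ⟨fun _ => mem_univ _, fun _ => h a.2⟩⟩
  have h1 : C ∩ A ≠ A := by
    intro h2
    apply h
    refine hA1.trans ?_
    rw [← h2]
    exact inter_subset_left
  have h2 := hprop _ (hC.inter hAc) inter_subset_right h1
  have h3 : Acc {b | ∃ a : A1, (a : S) ∈ C ∧ (φ a : S) = b} = ∅ := by
    apply hP _ _ _ _ inter_subset_right h2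
    · rintro _ ⟨a, ha, rfl⟩
      rcases hφ a with h4 | h4
      · exact Or.inr h4
      · rw [h4]; exact Or.inl ⟨ha, hA1 a.2⟩
    · intro hf
      exact fin_img φ (hf.subset (inter_subset_inter_right _ hA1))
  refine ⟨_, isClosed_of_acc_subset (by rw [h3]; exact empty_subset _), fun a => ?_⟩
  exact (img_iff φ C a).symm

theorem flat_case [T1Space S] (hS : Thin S)
    (hcg : ∀ (C : Set S) (x : S), x ∈ Acc C → ∃ E ⊆ C, CG E ∧ x ∈ Acc E)
    (hns : ∀ E F : Set S, CG E → CG F → Acc F ⊆ Acc E → Acc E ⊆ Acc F) {E : Set S} (hE : CG E) :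
    False := by
  have hAc := isClosed_acc E
  have hprop : ∀ C, IsClosed C → C ⊆ Acc E → C ≠ Acc E → Acc C = ∅ := by
    intro C hC hCE hne
    by_contra hcon
    obtain ⟨x, hx⟩ := nonempty_iff_ne_empty.2 hcon
    obtain ⟨F, hFC, hF, _⟩ := hcg _ _ hx
    have h1 : Acc F ⊆ C := acc_subset hC hFC
    exact hne (Subset.antisymm hCE ((hns E F hE hF (h1.trans hCE)).trans h1))
  obtain ⟨D, hDA, hDi, hDc, hP⟩ : ∃ D ⊆ Acc E, D.Infinite ∧ D.Countable ∧
      ∀ X Y : Set S, X ⊆ Y ∪ D → (Y.Finite → X.Finite) → Y ⊆ Acc E → Acc Y = ∅ → Acc X = ∅ := by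
    by_cases hc : ∃ D' ⊆ Acc E, D'.Infinite ∧ Acc D' = ∅
    · obtain ⟨D', h1, h2, h3⟩ := hc
      obtain ⟨D, h4, h5, h6⟩ := h2.exists_subset_countable_infinite
      have hDe : Acc D = ∅ := subset_empty_iff.1 (h3 ▸ Acc.mono h4)
      refine ⟨D, h4.trans h1, h6, h5, ?_⟩
      intro X Y hX _ _ hY
      apply subset_empty_iff.1
      refine (Acc.mono hX).trans ((Acc.union _ _).trans ?_)
      rw [hY, hDe, union_empty]
    · refine ⟨E, hE.2, hE.1.1, hE.1.2.1, ?_⟩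
      intro X Y _ h2 h3 h4
      apply acc_finite
      apply h2
      by_contra hinf
      exact hc ⟨Y, h3, hinf, h4⟩
  obtain ⟨d0, hd0⟩ := hDi.nonempty
  have hDi' : (D \ {d0}).Infinite := hDi.sdiff (finite_singleton d0)
  obtain ⟨f⟩ := exists_equiv hDi hDc hDi' (hDc.mono sdiff_subset)
  have hd1 : Disjoint D (Acc E \ D) := disjoint_sdiff_right
  have hd2 : Disjoint (D \ {d0}) (Acc E \ D) := hd1.mono_left sdiff_subset
  obtain ⟨φ, h1, h2, h3, h4⟩ := glueEquiv2 hd1 hd2 f (Equiv.refl _)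
  have hsub1 : D ∪ (Acc E \ D) ⊆ Acc E := union_subset hDA sdiff_subset
  have hsub2 : (D \ {d0}) ∪ (Acc E \ D) ⊆ Acc E :=
    union_subset (sdiff_subset.trans hDA) sdiff_subset
  have hh : Nonempty ((D ∪ (Acc E \ D) : Set S) ≃ₜ ((D \ {d0}) ∪ (Acc E \ D) : Set S)) := by
    apply mkHomeo φ
    · apply sh_half hAc hsub1 φ _ hprop hP
      rintro ⟨a, ha | ha⟩
      · left
        rw [h1 a ha]
        exact (f ⟨a, ha⟩).2.1
      · right
        rw [h2 a ha]
        rfl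
    · intro C' hC'
      have hq : ∀ a, (φ.symm a : S) ∈ D ∨ (φ.symm a : S) = a := by
        rintro ⟨a, ha | ha⟩
        · left
          rw [h3 a ha]
          exact (f.symm ⟨a, ha⟩).2
        · right
          rw [h4 a ha]
          rfl
      obtain ⟨C, hC, hh⟩ := sh_half hAc hsub2 φ.symm hq hprop hP C' hC'
      refine ⟨C, hC, fun a => ?_⟩
      have := hh (φ a)
      rw [Equiv.symm_apply_apply] at this
      exact this.symm
  have hA : D ∪ (Acc E \ D) = Acc E := union_sdiff_cancel hDA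
  have hcl := closed_conj hS hh (by rw [hA]; exact hAc)
  have hE1 : (E \ {d0}).Infinite := hE.1.1.sdiff (finite_singleton d0)
  have hE2 : E \ {d0} ⊆ (D \ {d0}) ∪ (Acc E \ D) := by
    rintro e ⟨he1, he2⟩
    by_cases hed : e ∈ D
    · exact Or.inl ⟨hed, he2⟩
    · exact Or.inr ⟨hE.2 he1, hed⟩
  have h5 := acc_subset hcl hE2
  rw [hE.1.acc_eq sdiff_subset hE1] at h5
  rcases h5 (hDA hd0) with h6 | h6
  · exact h6.2 rfl
  · exact h6.2 hd0

end Pool.Agent.H376R4
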