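import Pool.Agent.H376R4.Thin3

/-!
# Thin first countable spaces
-/

set_option autoImplicit false

open Set Topology Filter Function

universe u

namespace Pool.Agent.H376R4

variable {S : Type u} [TopologicalSpace S]

theorem isClosed_lm (X : Set S) : IsClosed (Lm X) := by
  rw [← isOpen_compl_iff, isOpen_iff_mem_nhds]
  intro p hp
  have h1 : ∃ U ∈ 𝓝 p, ¬ (X \ U).Finite := by
    by_contra hcon
    push Not at hcon
    exact hp hcon
  obtain ⟨U, hU, hi⟩ := h1
  obtain ⟨V, hVU, hV, hpV⟩ := mem_nhds_iff.1 hU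
  refine mem_of_superset (hV.mem_nhds hpV) ?_
  intro q hq hq2
  exact hi ((hq2 V (hV.mem_nhds hq)).subset (sdiff_subset_sdiff_right hVU))

/-- an infinite set contained in its own limit set is good -/
theorem cg_of {W : Set S} (hW : W.Infinite) (h : W ⊆ Lm W) : ∃ Y ⊆ W, CG Y := by
  obtain ⟨Y, hY, hYc, hYi⟩ := hW.exists_subset_countable_infinite
  have h1 : Y ⊆ Lm Y := hY.trans (h.trans (Lm.anti hY))
  refine ⟨Y, hY, ⟨hYi, hYc, ?_⟩, h1.trans (Lm.subset_acc hYi)⟩
  intro p hp U hU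
  obtain ⟨V, hVU, hV, hpV⟩ := mem_nhds_iff.1 hU
  obtain ⟨y, hy1, hy2⟩ := (hp V (hV.mem_nhds hpV)).nonempty
  exact (h1 hy2 V (hV.mem_nhds hy1)).subset (sdiff_subset_sdiff_right hVU)

/-- every infinite set contains a countably infinite set of isolated points or a countably
infinite set with the cofinite topology -/
theorem iso_or_cg [T1Space S] (X : Set S) (hX : X.Infinite) :
    (∃ Y ⊆ X, Y.Infinite ∧ Y.Countable ∧ Iso Y) ∨ ∃ Y ⊆ X, CG Y := by
  by_cases h : ∃ W ⊆ X, W.Infinite ∧ W ⊆ Lm W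
  · obtain ⟨W, h1, h2, h3⟩ := h
    obtain ⟨Y, hY, hc⟩ := cg_of h2 h3
    exact Or.inr ⟨Y, hY.trans h1, hc⟩
  left
  have step : ∀ W : {W : Set S // W ⊆ X ∧ W.Infinite}, ∃ (w : S) (U : Set S), w ∈ W.1 ∧ IsOpen U ∧
      w ∈ U ∧ (W.1 \ U).Infinite := by
    rintro ⟨W, hWX, hWi⟩
    by_contra hcon
    apply h
    refine ⟨W, hWX, hWi, ?_⟩
    intro w hw U hU
    obtain ⟨V, hVU, hV, hwV⟩ := mem_nhds_iff.1 hU
    by_contra hi
    exact hcon ⟨w, V, hw, hV, hwV, fun hf => hi (hf.subset (sdiff_subset_sdiff_right hVU))⟩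
  choose w U hw hU hwU hi using step
  let g : ℕ → {W : Set S // W ⊆ X ∧ W.Infinite} := fun n =>
    Nat.rec ⟨X, Subset.rfl, hX⟩ (fun _ G => ⟨G.1 \ U G, sdiff_subset.trans G.2.1, hi G⟩) n
  have hg : ∀ n, (g (n+1)).1 = (g n).1 \ U (g n) := fun n => rfl
  have hanti : Antitone (fun n => (g n).1) := antitone_nat_of_succ_le (fun n => by
    rw [hg]; exact sdiff_subset)
  have hlt : ∀ n m, n < m → w (g m) ∉ U (g n) := by
    intro n m hnm hmem
    have h1 : w (g m) ∈ (g (n+1)).1 := hanti (Nat.succ_le_of_lt hnm) (hw (g m))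
    rw [hg] at h1
    exact h1.2 hmem
  have hinj : Injective (fun n => w (g n)) := by
    intro a b hab
    by_contra hne
    have hab' : w (g a) = w (g b) := hab
    rcases lt_or_gt_of_ne hne with h1 | h1
    · exact hlt a b h1 (hab' ▸ hwU (g a))
    · exact hlt b a h1 (hab' ▸ hwU (g b))
  refine ⟨range (fun n => w (g n)), ?_, infinite_range_of_injective hinj, countable_range _, ?_⟩
  · rintro _ ⟨n, rfl⟩
    exact (g n).2.1 (hw (g n))
  · rintro _ ⟨n, rfl⟩
    refine notMem_acc.2 ⟨U (g n), hU (g n), hwU (g n), ?_⟩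
    refine ((finite_lt_nat (n+1)).image (fun k => w (g k))).subset ?_
    rintro _ ⟨h1, m, rfl⟩
    refine ⟨m, ?_, rfl⟩
    by_contra hm
    have hm' : ¬ m < n + 1 := hm
    exact hlt n m (by omega) h1

theorem att_lm [T1Space S] {D L : Set S} (hi : D.Infinite) (hc : D.Countable) (hD : Iso D)
    (hL : L ⊆ Lm D) : Att D L where
  inf := hi
  cnt := hc
  dis := disjoint_left.2 fun x hx hxL => hD x hx (Lm.subset_acc hi (hL hxL))
  c1 := by
    intro C hC hCi p hp
    by_contra hpC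
    apply hCi
    refine (hL hp _ (hC.isOpen_compl.mem_nhds hpC)).subset ?_
    rintro x ⟨h1, h2⟩
    exact ⟨h2, fun h3 => h3 h1⟩
  c2 := by
    intro K hK
    refine ⟨K ∪ Acc D, ?_, ?_, (hL.trans (Lm.subset_acc hi)).trans subset_union_right⟩
    · apply isClosed_of_acc_subset
      refine (Acc.union _ _).trans ?_
      refine union_subset ((Acc.mono hK).trans subset_union_right)
        ((acc_subset (isClosed_acc D) Subset.rfl).trans subset_union_right)
    · ext x
      constructor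
      · rintro ⟨h | h, h2⟩
        · exact h
        · exact absurd h (hD x h2)
      · intro h
        exact ⟨Or.inl h, hK h⟩

theorem lm_image_eq (h : S ≃ₜ S) (X : Set S) : Lm (h '' X) = h '' Lm X := by
  apply Subset.antisymm _ (lm_image h X)
  have h1 := lm_image h.symm (h '' X)
  rw [← image_comp] at h1
  have h2 : (h.symm ∘ h : S → S) = id := by funext x; simp
  rw [h2, image_id] at h1
  intro p hp
  have := h1 ⟨p, hp, rfl⟩
  exact ⟨h.symm p, this, by simp⟩

theorem lm_rigid [T1Space S] (hS : Thin S) {D E : Set S} (hDi : D.Infinite) (hDc : D.Countable)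
    (hD : Iso D) (hEi : E.Infinite) (hEc : E.Countable) (hE : Iso E) (h : Lm D ⊆ Lm E) :
    Lm E ⊆ Lm D := by
  have hcl := isClosed_lm D
  have aD := att_lm hDi hDc hD (Subset.refl (Lm D))
  have aE := att_lm hEi hEc hE h
  obtain ⟨k, hk⟩ := hS _ _ (att_homeo hcl aD aE)
  have isoL : ∀ X : Set S, Iso X → Disjoint X (Lm D) → ∀ x ∈ X, x ∉ Acc (X ∪ Lm D) := by
    intro X hX hd x hx hxa
    rcases Acc.union _ _ hxa with h1 | h1
    · exact hX x hx h1
    · exact disjoint_left.1 hd hx (acc_subset hcl Subset.rfl h1)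
  have h1 : k '' D ⊆ E := by
    rintro _ ⟨d, hd, rfl⟩
    have h2 : k d ∈ E ∪ Lm D := by rw [← hk]; exact ⟨d, Or.inl hd, rfl⟩
    rcases h2 with h2 | h2
    · exact h2
    · exfalso
      have h3 : k d ∈ Acc (E ∪ Lm D) := Acc.mono subset_union_left (Lm.subset_acc hEi (h h2))
      rw [← hk, acc_image] at h3
      obtain ⟨d', hd', hdd⟩ := h3
      rw [k.injective hdd] at hd'
      exact isoL D hD aD.dis d hd hd'
  have h2 : k '' Lm D ⊆ Lm D := by
    rintro _ ⟨p, hp, rfl⟩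
    have h3 : k p ∈ E ∪ Lm D := by rw [← hk]; exact ⟨p, Or.inr hp, rfl⟩
    rcases h3 with h3 | h3
    · exfalso
      have h4 : p ∈ Acc (D ∪ Lm D) := Acc.mono subset_union_left (Lm.subset_acc hDi hp)
      have h5 : k p ∈ Acc (E ∪ Lm D) := by
        rw [← hk, acc_image]
        exact ⟨p, h4, rfl⟩
      exact isoL E hE aE.dis _ h3 h5
    · exact h3
  calc Lm E ⊆ Lm (k '' D) := Lm.anti h1
    _ = k '' Lm D := lm_image_eq k D
    _ ⊆ Lm D := h2

theorem iso_acc_empty [T1Space S] [FirstCountableTopology S] (hS : Thin S)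
    (hom : ∀ x y : S, ∃ h : S ≃ₜ S, h x = y) (D : Set S) (hi : D.Infinite) (hc : D.Countable)
    (hD : Iso D) : Acc D = ∅ := by
  by_contra hne
  refine caseB hS hom (D0 := D) ⟨hi, hc, ?_⟩ hD (nonempty_iff_ne_empty.2 hne)
  intro y hy
  obtain ⟨Z, hZ, h1, h2, h3⟩ := exists_lm hy
  exact lm_rigid hS hi hc hD h1 h2 (hD.sub hZ) (Lm.anti hZ) h3

theorem exists_cg [T1Space S] [FirstCountableTopology S]
    (hA : ∀ Z : Set S, Z.Infinite → Z.Countable → Iso Z → Acc Z = ∅) (C : Set S) (x : S)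
    (hx : x ∈ Acc C) : ∃ E ⊆ C, CG E ∧ x ∈ Acc E := by
  obtain ⟨Z, hZ, h1, h2, h3⟩ := exists_lm hx
  rcases iso_or_cg Z h1 with ⟨Y, hY, hi, hc, hiso⟩ | ⟨Y, hY, hcg⟩
  · have := Lm.subset_acc hi (Lm.anti hY h3)
    rw [hA Y hi hc hiso] at this
    exact absurd this (notMem_empty x)
  · exact ⟨Y, hY.trans hZ, hcg, Lm.subset_acc hcg.1.1 (Lm.anti hY h3)⟩

theorem no_t1 [T1Space S] [FirstCountableTopology S] [Nonempty S] (hS : Thin S)
    (hom : ∀ x y : S, ∃ h : S ≃ₜ S, h x = y) (hni : ∀ x : S, ¬ IsOpen ({x} : Set S)) : False := by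
  have hA := iso_acc_empty hS hom
  obtain ⟨x⟩ := ‹Nonempty S›
  have hx : x ∈ Acc (univ : Set S) := by
    intro U hU hf
    rw [inter_univ] at hf
    obtain ⟨V, hVU, hV, hxV⟩ := mem_nhds_iff.1 hU
    apply hni x
    have h1 : IsOpen (V \ (V \ {x})) := hV.sdiff ((hf.subset hVU).subset sdiff_subset).isClosed
    convert h1 using 1
    ext y
    constructor
    · intro hy
      rw [mem_singleton_iff] at hy
      rw [hy]
      exact ⟨hxV, fun h => h.2 rfl⟩
    · rintro ⟨h2, h3⟩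
      by_contra hne
      exact h3 ⟨h2, hne⟩
  obtain ⟨E, _, hE, _⟩ := exists_cg hA _ _ hx
  apply flat_case hS (exists_cg hA) _ hE
  intro E' F' hE' hF' hsub
  by_contra hns
  exact no_strict hS hA hE' hF' ⟨hsub, hns⟩

end Pool.Agent.H376R4
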