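import Pool.Agent.H376R4.Thin4

/-!
# Thin spaces: well ordered decreasing families of closures of good sets
-/

set_option autoImplicit false

open Set Topology Filter Function

universe u v

namespace Pool.Agent.H376R4

variable {S : Type u} [TopologicalSpace S]

/-- normalized decreasing families -/
structure Ch {ι : Type v} [LinearOrder ι] (E : ι → Set S) : Prop where
  cg : ∀ i, CG (E i)
  anti : ∀ i j, i < j → Acc (E j) ⊆ Acc (E i)
  dis : ∀ i j, i < j → Disjoint (E i) (Acc (E j))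

theorem Ch.anti' {ι : Type v} [LinearOrder ι] {E : ι → Set S} (h : Ch E) {i j : ι} (hij : i ≤ j) :
    Acc (E j) ⊆ Acc (E i) := by
  rcases hij.lt_or_eq with h1 | h1
  · exact h.anti i j h1
  · rw [h1]

theorem Ch.pd {ι : Type v} [LinearOrder ι] {E : ι → Set S} (h : Ch E) :
    Pairwise (Disjoint on E) := by
  intro i j hij
  rcases lt_or_gt_of_ne hij with h1 | h1
  · exact (h.dis i j h1).mono_right (h.cg j).2
  · exact ((h.dis j i h1).mono_right (h.cg i).2).symm

theorem Ch.cgt {ι : Type v} [LinearOrder ι] [WellFoundedLT ι] {E : ι → Set S} (h : Ch E)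
    {Y : Set S} (hY : CG Y) (hYT : Y ⊆ ⋃ i, E i) :
    ∃ i, (Y ∩ E i).Infinite ∧ Acc Y = Acc (E i) := by
  have hne : {i | (Y ∩ E i).Nonempty}.Nonempty := by
    obtain ⟨y, hy⟩ := hY.1.1.nonempty
    obtain ⟨i, hi⟩ := mem_iUnion.1 (hYT hy)
    exact ⟨i, y, hy, hi⟩
  have wf : WellFounded (fun a b : ι => a < b) := wellFounded_lt
  set i := wf.min _ hne with hi
  have hi1 : (Y ∩ E i).Nonempty := wf.min_mem _ hne
  have hi2 : ∀ j, (Y ∩ E j).Nonempty → i ≤ j := fun j hj => not_lt.1 (wf.not_lt_min _ hj)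
  have hinf : (Y ∩ E i).Infinite := by
    intro hf
    have h1 : (Y \ E i).Infinite := by
      intro h2
      apply hY.1.1
      refine (hf.union h2).subset ?_
      intro x hx
      by_cases hxe : x ∈ E i
      · exact Or.inl ⟨hx, hxe⟩
      · exact Or.inr ⟨hx, hxe⟩
    have hne2 : {j | ((Y \ E i) ∩ E j).Nonempty}.Nonempty := by
      obtain ⟨y, hy⟩ := h1.nonempty
      obtain ⟨j, hj⟩ := mem_iUnion.1 (hYT hy.1)
      exact ⟨j, y, hy, hj⟩
    set j := wf.min _ hne2 with hj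
    have hj1 : ((Y \ E i) ∩ E j).Nonempty := wf.min_mem _ hne2
    have hj2 : ∀ k, ((Y \ E i) ∩ E k).Nonempty → j ≤ k := fun k hk =>
      not_lt.1 (wf.not_lt_min _ hk)
    have hij : i < j := by
      obtain ⟨y, hy1, hy2⟩ := hj1
      refine lt_of_le_of_ne (hi2 j ⟨y, hy1.1, hy2⟩) ?_
      intro he
      rw [← he] at hy2
      exact hy1.2 hy2
    have h3 : Y \ E i ⊆ Acc (E j) := by
      intro y hy
      obtain ⟨k, hk⟩ := mem_iUnion.1 (hYT hy.1)
      exact h.anti' (hj2 k ⟨y, hy, hk⟩) ((h.cg k).2 hk)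
    have h4 : Acc Y ⊆ Acc (E j) := by
      rw [← hY.1.acc_eq sdiff_subset h1]
      exact acc_subset (isClosed_acc _) h3
    obtain ⟨y, hy1, hy2⟩ := hi1
    exact disjoint_left.1 (h.dis i j hij) hy2 (h4 (hY.2 hy1))
  refine ⟨i, hinf, ?_⟩
  rw [← hY.1.acc_eq inter_subset_left hinf, (h.cg i).1.acc_eq inter_subset_right hinf]

theorem Ch.diag {ι : Type v} [LinearOrder ι] [WellFoundedLT ι] {E : ι → Set S} (h : Ch E)
    (hcg : ∀ (C : Set S) (x : S), x ∈ Acc C → ∃ E ⊆ C, CG E ∧ x ∈ Acc E)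
    {Q : Set S} (hQ : Q ⊆ ⋃ i, E i) (hf : ∀ i, (Q ∩ E i).Finite) : Acc Q = ∅ := by
  by_contra hne
  obtain ⟨x, hx⟩ := nonempty_iff_ne_empty.2 hne
  obtain ⟨Y, hY, hYc, _⟩ := hcg Q x hx
  obtain ⟨i, hi, _⟩ := h.cgt hYc (hY.trans hQ)
  exact hi ((hf i).subset (inter_subset_inter_left _ hY))

theorem Ch.half {ι : Type v} [LinearOrder ι] [WellFoundedLT ι] [T1Space S] {E E' : ι → Set S}
    (h : Ch E) (h' : Ch E')
    (hcg : ∀ (C : Set S) (x : S), x ∈ Acc C → ∃ E ⊆ C, CG E ∧ x ∈ Acc E)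
    (f : ∀ i, E i ≃ E' i) (C : Set S) (hC : IsClosed C) :
    ∃ C', IsClosed C' ∧ ∀ (i : ι) (a : E i), (a : S) ∈ C ↔ (f i a : S) ∈ C' := by
  have key : ∀ J : Set ι, (∀ i ∈ J, (C ∩ E i).Finite) →
      Acc {b : S | ∃ i ∈ J, ∃ a : E i, (a : S) ∈ C ∧ (f i a : S) = b} = ∅ := by
    intro J hJ
    apply h'.diag hcg
    · rintro b ⟨i, _, a, _, rfl⟩
      exact mem_iUnion.2 ⟨i, (f i a).2⟩
    · intro k
      by_cases hk : k ∈ J
      · refine (fin_img (f k) (hJ k hk)).subset ?_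
        rintro b ⟨⟨i, hi, a, ha, rfl⟩, hb⟩
        have hik : i = k := by
          by_contra hne
          exact disjoint_left.1 (h'.pd hne) (f i a).2 hb
        subst hik
        exact ⟨a, ha, rfl⟩
      · refine finite_empty.subset ?_
        rintro b ⟨⟨i, hi, a, ha, rfl⟩, hb⟩
        have hik : i = k := by
          by_contra hne
          exact disjoint_left.1 (h'.pd hne) (f i a).2 hb
        subst hik
        exact hk hi
  have kiff : ∀ (J : Set ι) (i : ι), i ∈ J → ∀ a : E i,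
      (f i a : S) ∈ {b : S | ∃ i ∈ J, ∃ a : E i, (a : S) ∈ C ∧ (f i a : S) = b} ↔ (a : S) ∈ C := by
    intro J i hi a
    constructor
    · rintro ⟨k, hk, a', ha', he⟩
      have hik : k = i := by
        by_contra hne
        exact disjoint_left.1 (h'.pd hne) (f k a').2 (he ▸ (f i a).2)
      subst hik
      have := (f k).injective (Subtype.ext he)
      rwa [this] at ha'
    · intro ha
      exact ⟨i, hi, a, ha, rfl⟩
  by_cases hfin : ∀ i, (C ∩ E i).Finite
  · refine ⟨_, isClosed_of_acc_subset (by rw [key univ (fun i _ => hfin i)]; exact empty_subset _),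
      fun i a => (kiff univ i (mem_univ _) a).symm⟩
  · have hne : {i | (C ∩ E i).Infinite}.Nonempty := by
      by_contra hcon
      apply hfin
      intro i
      by_contra hi
      exact hcon ⟨i, hi⟩
    have wf : WellFounded (fun a b : ι => a < b) := wellFounded_lt
    set i0 := wf.min _ hne with hi0
    have h1 : (C ∩ E i0).Infinite := wf.min_mem _ hne
    have h2 : ∀ j, j < i0 → (C ∩ E j).Finite := by
      intro j hj
      by_contra hinf
      exact wf.not_lt_min _ hinf hj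
    have h3 : Acc (E i0) ⊆ C := (h.cg i0).1.acc_subset_of_inter hC h1
    refine ⟨Acc (E' i0) ∪ _, (isClosed_acc _).union
      (isClosed_of_acc_subset (by rw [key (Iio i0) (fun i hi => h2 i hi)]; exact empty_subset _)),
      fun i a => ?_⟩
    by_cases hi : i < i0
    · constructor
      · intro ha
        exact Or.inr ((kiff (Iio i0) i hi a).2 ha)
      · rintro (ha | ha)
        · exact absurd ha (disjoint_left.1 (h'.dis i i0 hi) (f i a).2)
        · exact (kiff (Iio i0) i hi a).1 ha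
    · have hi' := not_lt.1 hi
      exact ⟨fun _ => Or.inl (h'.anti' hi' ((h'.cg i).2 (f i a).2)),
        fun _ => h3 (h.anti' hi' ((h.cg i).2 a.2))⟩

theorem Ch.homeo {ι : Type v} [LinearOrder ι] [WellFoundedLT ι] [T1Space S] {E E' : ι → Set S}
    (h : Ch E) (h' : Ch E')
    (hcg : ∀ (C : Set S) (x : S), x ∈ Acc C → ∃ E ⊆ C, CG E ∧ x ∈ Acc E) :
    Nonempty ((⋃ i, E i : Set S) ≃ₜ (⋃ i, E' i : Set S)) := by
  have f : ∀ i, E i ≃ E' i := fun i => (exists_equiv (h.cg i).1.1 (h.cg i).1.2.1 (h'.cg i).1.1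
    (h'.cg i).1.2.1).some
  let e1 := Equiv.ofBijective (sigmaToiUnion E) (sigmaToiUnion_bijective E h.pd)
  let e2 := Equiv.ofBijective (sigmaToiUnion E') (sigmaToiUnion_bijective E' h'.pd)
  let φ := e1.symm.trans ((Equiv.sigmaCongrRight f).trans e2)
  have hφ : ∀ (i : ι) (a : E i), (φ (e1 ⟨i, a⟩) : S) = f i a := by
    intro i a
    simp only [φ, Equiv.trans_apply, Equiv.symm_apply_apply]
    rfl
  have he : ∀ (i : ι) (a : E i), (e1 ⟨i, a⟩ : S) = a := fun i a => rfl
  apply mkHomeo φ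
  · intro C hC
    obtain ⟨C', hC', hh⟩ := h.half h' hcg f C hC
    refine ⟨C', hC', fun a => ?_⟩
    obtain ⟨⟨i, a⟩, rfl⟩ := e1.surjective a
    rw [hφ, he]
    exact hh i a
  · intro C' hC'
    obtain ⟨C, hC, hh⟩ := h'.half h hcg (fun i => (f i).symm) C' hC'
    refine ⟨C, hC, fun a => ?_⟩
    obtain ⟨⟨i, a⟩, rfl⟩ := e1.surjective a
    rw [hφ, he]
    have := hh i (f i a)
    rw [Equiv.symm_apply_apply] at this
    exact this.symm

theorem Ch.ss {ι : Type v} [LinearOrder ι] {E : ι → Set S} (h : Ch E) {i j : ι} :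
    Acc (E j) ⊂ Acc (E i) ↔ i < j := by
  have key : ∀ i j, i < j → Acc (E j) ⊂ Acc (E i) := by
    intro i j hij
    refine ⟨h.anti i j hij, fun hcon => ?_⟩
    obtain ⟨e, he⟩ := (h.cg i).1.1.nonempty
    exact disjoint_left.1 (h.dis i j hij) he (hcon ((h.cg i).2 he))
  constructor
  · intro hss
    by_contra hcon
    rcases (not_lt.1 hcon).lt_or_eq with h1 | h1
    · exact (key j i h1).2 hss.1
    · rw [h1] at hss
      exact hss.2 hss.1
  · exact key i j

theorem Ch.conj {ι : Type v} [LinearOrder ι] [WellFoundedLT ι] [T1Space S] (hS : Thin S)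
    {E E' : ι → Set S} (h : Ch E) (h' : Ch E')
    (hcg : ∀ (C : Set S) (x : S), x ∈ Acc C → ∃ E ⊆ C, CG E ∧ x ∈ Acc E) :
    ∃ k : S ≃ₜ S, ∀ i, k '' Acc (E i) = Acc (E' i) := by
  obtain ⟨k, hk⟩ := hS _ _ (h.homeo h' hcg)
  have hk' : k.symm '' (⋃ i, E' i) = ⋃ i, E i := by
    rw [← hk, ← image_comp]
    have h2 : (k.symm ∘ k : S → S) = id := by funext x; simp
    rw [h2, image_id]
  have hsym : ∀ X : Set S, k.symm '' (k '' X) = X := by
    intro X
    rw [← image_comp]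
    have h2 : (k.symm ∘ k : S → S) = id := by funext x; simp
    rw [h2, image_id]
  have s1 : ∀ i, ∃ j, k '' Acc (E i) = Acc (E' j) := by
    intro i
    obtain ⟨j, _, hj⟩ := h'.cgt ((h.cg i).image k) (by
      rw [← hk]; exact image_mono (subset_iUnion E i))
    exact ⟨j, by rw [← hj, acc_image]⟩
  have s2 : ∀ i, ∃ j, k.symm '' Acc (E' i) = Acc (E j) := by
    intro i
    obtain ⟨j, _, hj⟩ := h.cgt ((h'.cg i).image k.symm) (by
      rw [← hk']; exact image_mono (subset_iUnion E' i))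
    exact ⟨j, by rw [← hj, acc_image]⟩
  choose σ hσ using s1
  choose τ hτ using s2
  have m1 : StrictMono σ := by
    intro a b hab
    rw [← h'.ss, ← hσ, ← hσ]
    exact image_ssub k (h.ss.2 hab)
  have m2 : StrictMono τ := by
    intro a b hab
    rw [← h.ss, ← hτ, ← hτ]
    exact image_ssub k.symm (h'.ss.2 hab)
  refine ⟨k, fun i => ?_⟩
  have h1 : i ≤ σ i := m1.le_apply
  have h2 : σ i ≤ τ (σ i) := m2.le_apply
  have h3 : Acc (E (τ (σ i))) = Acc (E i) := by
    rw [← hτ, ← hσ, hsym]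
  have h4 : τ (σ i) = i := by
    by_contra hne
    rcases lt_or_gt_of_ne hne with h5 | h5
    · have := h.ss.2 h5
      rw [h3] at this
      exact this.2 this.1
    · have := h.ss.2 h5
      rw [h3] at this
      exact this.2 this.1
  have h5 : σ i = i := le_antisymm (h2.trans h4.le) h1
  rw [hσ, h5]

/-- conjugacy of strictly decreasing well ordered families -/
theorem str_conj {ι : Type v} [LinearOrder ι] [WellFoundedLT ι] [T1Space S] (hS : Thin S)
    (hcg : ∀ (C : Set S) (x : S), x ∈ Acc C → ∃ E ⊆ C, CG E ∧ x ∈ Acc E)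
    {E E' : ι → Set S} (h1 : ∀ i, CG (E i)) (h2 : ∀ i j, i < j → Acc (E j) ⊂ Acc (E i))
    (h1' : ∀ i, CG (E' i)) (h2' : ∀ i j, i < j → Acc (E' j) ⊂ Acc (E' i)) :
    ∃ k : S ≃ₜ S, ∀ i, k '' Acc (E i) = Acc (E' i) := by
  have norm : ∀ E : ι → Set S, (∀ i, CG (E i)) → (∀ i j, i < j → Acc (E j) ⊂ Acc (E i)) →
      ∃ D : ι → Set S, Ch D ∧ ∀ i, Acc (D i) = Acc (E i) := by
    intro E h1 h2
    have hone : ∀ i, ∃ D : Set S, CG D ∧ Acc D = Acc (E i) ∧
        ∀ j, i < j → Disjoint D (Acc (E j)) := by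
      intro i
      by_cases hj : ∃ j, i < j
      · have wf : WellFounded (fun a b : ι => a < b) := wellFounded_lt
        set s := wf.min {j | i < j} hj with hs
        have hs1 : i < s := wf.min_mem {j | i < j} hj
        have hs2 : ∀ j, i < j → s ≤ j := fun j hj' => not_lt.1 (wf.not_lt_min {j | i < j} hj')
        obtain ⟨h3, h4⟩ := sp_norm (h1 i) (h1 s) (h2 i s hs1)
        refine ⟨_, h3.e, h4, fun j hij => h3.dis.mono_right ?_⟩
        rcases (hs2 j hij).lt_or_eq with h5 | h5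
        · exact (h2 s j h5).1
        · rw [h5]
      · exact ⟨E i, h1 i, rfl, fun j hij => absurd ⟨j, hij⟩ hj⟩
    choose D hD1 hD2 hD3 using hone
    refine ⟨D, ⟨hD1, ?_, ?_⟩, hD2⟩
    · intro i j hij
      rw [hD2, hD2]
      exact (h2 i j hij).1
    · intro i j hij
      rw [hD2]
      exact hD3 i j hij
  obtain ⟨D, hD, hD2⟩ := norm E h1 h2
  obtain ⟨D', hD', hD2'⟩ := norm E' h1' h2'
  obtain ⟨k, hk⟩ := hD.conj hS hD' hcg
  refine ⟨k, fun i => ?_⟩
  rw [← hD2, ← hD2', hk]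

end Pool.Agent.H376R4
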