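import Pool.Agent.H376R4.Thin5

/-!
# Thin Frechet-Urysohn spaces
-/

set_option autoImplicit false

open Set Topology Filter Function

universe u v

namespace Pool.Agent.H376R4

variable {S : Type u} [TopologicalSpace S]

open Classical in
/-- a decreasing transfinite family of sets with property `P`, continued as long as possible -/
noncomputable def seqE (P : Set S → Prop) (γ : Ordinal.{u}) : Set S :=
  if h : ∃ G, P G ∧ ∀ β, (hβ : β < γ) → Acc G ⊂ Acc (seqE P β) then h.choose else ∅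
termination_by γ
decreasing_by exact hβ

theorem seqE_spec (P : Set S → Prop) (γ : Ordinal.{u})
    (h : ∃ G, P G ∧ ∀ β, β < γ → Acc G ⊂ Acc (seqE P β)) :
    P (seqE P γ) ∧ ∀ β, β < γ → Acc (seqE P γ) ⊂ Acc (seqE P β) := by
  have h1 : seqE P γ = h.choose := by
    rw [seqE, dif_pos h]
  rw [h1]
  exact h.choose_spec

theorem seq_max (P : Set S → Prop) : ∃ α : Ordinal.{u},
    (∀ β, β < α → P (seqE P β)) ∧
    (∀ γ β, γ < β → β < α → Acc (seqE P β) ⊂ Acc (seqE P γ)) ∧
    ¬ ∃ G, P G ∧ ∀ β, β < α → Acc G ⊂ Acc (seqE P β) := by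
  have hex : ∃ α : Ordinal.{u}, ¬ ∃ G, P G ∧ ∀ β, β < α → Acc G ⊂ Acc (seqE P β) := by
    by_contra hcon
    push Not at hcon
    have hinj : Injective (fun α : Ordinal.{u} => Acc (seqE P α)) := by
      intro a b hab
      have hab' : Acc (seqE P a) = Acc (seqE P b) := hab
      by_contra hne
      rcases lt_or_gt_of_ne hne with h1 | h1
      · have := (seqE_spec P b (hcon b)).2 a h1
        rw [hab'] at this
        exact this.2 this.1
      · have := (seqE_spec P a (hcon a)).2 b h1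
        rw [hab'] at this
        exact this.2 this.1
    exact not_injective_of_ordinal _ hinj
  have wf : WellFounded (fun a b : Ordinal.{u} => a < b) := wellFounded_lt
  set α := wf.min {α | ¬ ∃ G, P G ∧ ∀ β, β < α → Acc G ⊂ Acc (seqE P β)} hex with hα
  have h1 : ¬ ∃ G, P G ∧ ∀ β, β < α → Acc G ⊂ Acc (seqE P β) :=
    wf.min_mem {α | ¬ ∃ G, P G ∧ ∀ β, β < α → Acc G ⊂ Acc (seqE P β)} hex
  have h2 : ∀ β, β < α → ∃ G, P G ∧ ∀ γ, γ < β → Acc G ⊂ Acc (seqE P γ) := by
    intro β hβ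
    by_contra hcon
    exact wf.not_lt_min {α | ¬ ∃ G, P G ∧ ∀ β, β < α → Acc G ⊂ Acc (seqE P β)} hcon hβ
  refine ⟨α, fun β hβ => (seqE_spec P β (h2 β hβ)).1, fun γ β hγβ hβ =>
    (seqE_spec P β (h2 β hβ)).2 γ hγβ, h1⟩

/-- conjugacy of families indexed by the ordinals below `μ` -/
theorem ord_conj [T1Space S] (hS : Thin S)
    (hcg : ∀ (C : Set S) (x : S), x ∈ Acc C → ∃ E ⊆ C, CG E ∧ x ∈ Acc E) (μ : Ordinal.{u})
    {E E' : Ordinal.{u} → Set S} (h1 : ∀ i, i < μ → CG (E i))
    (h2 : ∀ i j, i < j → j < μ → Acc (E j) ⊂ Acc (E i))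
    (h1' : ∀ i, i < μ → CG (E' i)) (h2' : ∀ i j, i < j → j < μ → Acc (E' j) ⊂ Acc (E' i)) :
    ∃ k : S ≃ₜ S, ∀ i, i < μ → k '' Acc (E i) = Acc (E' i) := by
  obtain ⟨k, hk⟩ := str_conj (S := S) (ι := Iio μ) hS hcg (E := fun i => E i.1)
    (E' := fun i => E' i.1) (fun i => h1 i.1 i.2) (fun i j hij => h2 i.1 j.1 hij j.2)
    (fun i => h1' i.1 i.2) (fun i j hij => h2' i.1 j.1 hij j.2)
  exact ⟨k, fun i hi => hk ⟨i, hi⟩⟩

theorem no_strict_gen [T1Space S] (hS : Thin S)
    (hcg : ∀ (C : Set S) (x : S), x ∈ Acc C → ∃ E ⊆ C, CG E ∧ x ∈ Acc E)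
    {E F : Set S} (hE : CG E) (hF : CG F) (h : Acc F ⊂ Acc E) : False := by
  classical
  have nomin : ∀ G : Set S, CG G → ∃ G' : Set S, CG G' ∧ Acc G' ⊂ Acc G := by
    intro G hG
    obtain ⟨k, hk⟩ := cg_conj hS hE hG
    refine ⟨k '' F, hF.image k, ?_⟩
    have := image_ssub k h
    rwa [← acc_image, ← acc_image, hk] at this
  obtain ⟨α, a1, a2, a3⟩ := seq_max (S := S) CG
  obtain ⟨α', b1, b2, b3⟩ := seq_max (S := S) (fun G => CG G ∧ Acc F ⊂ Acc G)
  set X := seqE (S := S) CG with hX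
  set Y := seqE (S := S) (fun G => CG G ∧ Acc F ⊂ Acc G) with hY
  rcases le_or_gt α α' with hle | hlt
  · obtain ⟨G0, hG0, hG0'⟩ : ∃ G0, CG G0 ∧ ∀ β, β < α → Acc G0 ⊂ Acc (Y β) := by
      rcases hle.lt_or_eq with h1 | h1
      · exact ⟨Y α, (b1 α h1).1, fun β hβ => b2 β α hβ h1⟩
      · exact ⟨F, hF, fun β hβ => (b1 β (h1 ▸ hβ)).2⟩
    obtain ⟨k, hk⟩ := ord_conj hS hcg α (E := Y) (E' := X)
      (fun i hi => (b1 i (hi.trans_le hle)).1) (fun i j hij hj => b2 i j hij (hj.trans_le hle))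
      a1 a2
    apply a3
    refine ⟨k '' G0, hG0.image k, fun β hβ => ?_⟩
    have := image_ssub k (hG0' β hβ)
    rwa [hk β hβ, ← acc_image] at this
  · obtain ⟨H, hH, hH'⟩ := nomin (X α') (a1 α' hlt)
    obtain ⟨k, hk⟩ := ord_conj hS hcg (Order.succ α')
      (E := fun β => if β = α' then H else X β) (E' := fun β => if β = α' then F else Y β)
      (by
        intro i hi
        by_cases hia : i = α'
        · simp only [hia, if_true]; exact hH
        · simp only [hia, if_false]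
          exact a1 i ((Order.lt_succ_iff.1 hi).trans_lt hlt))
      (by
        intro i j hij hj
        have hj' := Order.lt_succ_iff.1 hj
        have hia : i ≠ α' := (hij.trans_le hj').ne
        simp only [hia, if_false]
        by_cases hja : j = α'
        · simp only [hja, if_true]
          exact hH'.trans (a2 i α' (hja ▸ hij) hlt)
        · simp only [hja, if_false]
          exact a2 i j hij (hj'.trans_lt hlt))
      (by
        intro i hi
        by_cases hia : i = α'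
        · simp only [hia, if_true]; exact hF
        · simp only [hia, if_false]
          exact (b1 i (lt_of_le_of_ne (Order.lt_succ_iff.1 hi) hia)).1)
      (by
        intro i j hij hj
        have hj' := Order.lt_succ_iff.1 hj
        have hia : i < α' := hij.trans_le hj'
        simp only [hia.ne, if_false]
        by_cases hja : j = α'
        · simp only [hja, if_true]
          exact (b1 i hia).2
        · simp only [hja, if_false]
          exact b2 i j hij (lt_of_le_of_ne hj' hja))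
    have hk1 : k '' Acc H = Acc F := by
      have := hk α' (Order.lt_succ α')
      simpa using this
    have hk2 : ∀ β, β < α' → k '' Acc (X β) = Acc (Y β) := by
      intro β hβ
      have := hk β (hβ.trans (Order.lt_succ α'))
      simpa [hβ.ne] using this
    apply b3
    refine ⟨k '' X α', ⟨(a1 α' hlt).image k, ?_⟩, fun β hβ => ?_⟩
    · have := image_ssub k hH'
      rwa [hk1, ← acc_image] at this
    · have := image_ssub k (a2 β α' hβ hlt)
      rwa [hk2 β hβ, ← acc_image] at this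

theorem exists_lm_fu [T1Space S] [FrechetUrysohnSpace S] {C : Set S} {x : S} (hx : x ∈ Acc C) :
    ∃ Z ⊆ C, Z.Infinite ∧ Z.Countable ∧ x ∈ Lm Z := by
  have h1 : x ∈ closure (C \ {x}) := by
    rw [mem_closure_iff_nhds]
    intro U hU
    have h2 := (hx U hU).sdiff (finite_singleton x)
    obtain ⟨y, hy1, hy2⟩ := h2.nonempty
    exact ⟨y, hy1.1, hy1.2, hy2⟩
  obtain ⟨s, hs, hlim⟩ := mem_closure_iff_seq_limit.1 h1
  have hLm : x ∈ Lm (range s) := by
    intro V hV
    have h3 := hlim hV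
    rw [mem_map, mem_atTop_sets] at h3
    obtain ⟨N, hN⟩ := h3
    refine ((finite_lt_nat N).image s).subset ?_
    rintro _ ⟨⟨m, rfl⟩, hm⟩
    refine ⟨m, ?_, rfl⟩
    by_contra hlt
    exact hm (hN m (not_lt.1 hlt))
  refine ⟨range s, ?_, ?_, countable_range s, hLm⟩
  · rintro _ ⟨n, rfl⟩
    exact (hs n).1
  · intro hfin
    have h4 : (range s)ᶜ ∈ 𝓝 x := by
      apply hfin.isClosed.isOpen_compl.mem_nhds
      rintro ⟨n, hn⟩
      exact (hs n).2 hn
    have h3 := hlim h4
    rw [mem_map, mem_atTop_sets] at h3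
    obtain ⟨N, hN⟩ := h3
    exact hN N le_rfl ⟨N, rfl⟩

/-- A thin homogeneous T1 space without isolated points is not Frechet-Urysohn. -/
theorem no_fu [T1Space S] [FrechetUrysohnSpace S] [Nonempty S] (hS : Thin S)
    (hom : ∀ x y : S, ∃ h : S ≃ₜ S, h x = y) (hni : ∀ x : S, ¬ IsOpen ({x} : Set S)) : False := by
  have hA : ∀ Z : Set S, Z.Infinite → Z.Countable → Iso Z → Acc Z = ∅ := by
    intro D hi hc hD
    by_contra hne
    refine caseB hS hom (D0 := D) ⟨hi, hc, ?_⟩ hD (nonempty_iff_ne_empty.2 hne)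
    intro y hy
    obtain ⟨Z, hZ, h1, h2, h3⟩ := exists_lm_fu hy
    exact lm_rigid hS hi hc hD h1 h2 (hD.sub hZ) (Lm.anti hZ) h3
  have hcg : ∀ (C : Set S) (x : S), x ∈ Acc C → ∃ E ⊆ C, CG E ∧ x ∈ Acc E := by
    intro C x hx
    obtain ⟨Z, hZ, h1, h2, h3⟩ := exists_lm_fu hx
    rcases iso_or_cg Z h1 with ⟨Y, hY, hi, hc, hiso⟩ | ⟨Y, hY, hcg⟩
    · have := Lm.subset_acc hi (Lm.anti hY h3)
      rw [hA Y hi hc hiso] at this
      exact absurd this (notMem_empty x)
    · exact ⟨Y, hY.trans hZ, hcg, Lm.subset_acc hcg.1.1 (Lm.anti hY h3)⟩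
  obtain ⟨x⟩ := ‹Nonempty S›
  have hx : x ∈ Acc (univ : Set S) := by
    intro U hU hf
    rw [inter_univ] at hf
    obtain ⟨V, hVU, hV, hxV⟩ := mem_nhds_iff.1 hU
    apply hni x
    have h1 : IsOpen (V \ (V \ {x})) := hV.sdiff ((hf.subset hVU).subset sdiff_subset).isClosed
    convert h1 using 1
    ext y
    constructor
    · intro hy
      rw [mem_singleton_iff] at hy
      rw [hy]
      exact ⟨hxV, fun h => h.2 rfl⟩
    · rintro ⟨h2, h3⟩
      by_contra hne
      exact h3 ⟨h2, hne⟩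
  obtain ⟨E, _, hE, _⟩ := hcg _ _ hx
  apply flat_case hS hcg _ hE
  intro E' F' hE' hF' hsub
  by_contra hns
  exact no_strict_gen hS hcg hE' hF' ⟨hsub, hns⟩

end Pool.Agent.H376R4
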